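import Pool.Agent.TH684.CX.Eng
import Pool.Agent.W762.RL.Cheb
import Pool.Agent.W320.RL.PolyS
import Pool.Agent.W901.RL.Search

/-!
# Amplification of randomised exclusion
-/

set_option autoImplicit false

namespace Pool.Agent.TH684.RX

open Finset Pool.Agent.NPC Pool.Agent.H579R2.Spt Pool.Agent.H251R5.PQ Pool.Agent.W901.AT
open Pool.Agent.W901.RL (blk blk_length)

/-- The number of times `l` occurs in the list. -/
def cnt (l : ℕ) (os : List ℕ) : ℕ := (os.filter fun l' => decide (l' = l)).length

/-- The outputs for all blocks of random bits. -/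
def outs (X : List Bool → ℕ) (q : List (List Bool) × (ℕ × (ℕ × List (List Bool)))) : List ℕ :=
  q.2.2.2.map fun r => X (bits (q.1, (q.2.1, r)))

/-- A frequent output. -/
def amp (X : List Bool → ℕ) (q : List (List Bool) × (ℕ × (ℕ × List (List Bool)))) : ℕ :=
  ((outs X q).filter fun l => decide ((outs X q).length ≤ q.2.2.1 * cnt l (outs X q))).head?.getD 0

theorem cnt_poly {α : Type} [TEnc α] {l : α → ℕ} {os : α → List ℕ} (hl : Poly l) (ho : Poly os) :
    Poly (fun a => cnt (l a) (os a)) := by
  unfold cnt
  refine NPC.Poly.length (NPC.Poly.filter (l := os) (p := fun a l' => decide (l' = l a)) ho ?_)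
  exact NPC.Poly.decide_eq (NPC.Poly.snd NPC.Poly.id) (hl.comp (NPC.Poly.fst NPC.Poly.id))

theorem outs_poly {X : List Bool → ℕ} (hX : Poly X) : Poly (outs X) := by
  unfold outs
  refine NPC.Poly.map (l := fun q : List (List Bool) × (ℕ × (ℕ × List (List Bool))) => q.2.2.2)
    (F := fun q r => X (bits (q.1, (q.2.1, r))))
    (NPC.Poly.snd (NPC.Poly.snd (NPC.Poly.snd NPC.Poly.id))) ?_
  have e1 : Poly (fun t : (List (List Bool) × (ℕ × (ℕ × List (List Bool)))) × List Bool => t.1) :=
    NPC.Poly.fst NPC.Poly.id
  exact hX.comp (bits_poly.comp (NPC.Poly.pair (NPC.Poly.fst e1)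
    (NPC.Poly.pair (NPC.Poly.fst (NPC.Poly.snd e1)) (NPC.Poly.snd NPC.Poly.id))))

theorem amp_poly {X : List Bool → ℕ} (hX : Poly X) : Poly (amp X) := by
  unfold amp
  have ho := outs_poly hX
  refine NPC.Poly.head?_getD (NPC.Poly.filter (l := outs X)
    (p := fun q l => decide ((outs X q).length ≤ q.2.2.1 * cnt l (outs X q))) ho ?_) 0
  have e1 : Poly (fun t : (List (List Bool) × (ℕ × (ℕ × List (List Bool)))) × ℕ => t.1) :=
    NPC.Poly.fst NPC.Poly.id
  exact NPC.Poly.decide_le (NPC.Poly.length (ho.comp e1)) (NPC.Poly.mul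
    (NPC.Poly.fst (NPC.Poly.snd (NPC.Poly.snd e1))) (cnt_poly (NPC.Poly.snd NPC.Poly.id)
      (ho.comp e1)))

theorem cnt_sum (F : ℕ) : ∀ os : List ℕ, (∀ l ∈ os, l < F) →
    ∑ l ∈ range F, cnt l os = os.length := by
  intro os
  induction os with
  | nil => intro _; simp [cnt]
  | cons o os ih =>
    intro h
    have h1 := ih fun l hl => h l (List.mem_cons_of_mem _ hl)
    have h2 : ∀ l, cnt l (o :: os) = (if o = l then 1 else 0) + cnt l os := by
      intro l
      unfold cnt
      by_cases h : o = l
      · rw [List.filter_cons_of_pos (by simpa using h), List.length_cons, if_pos h, add_comm]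
      · rw [List.filter_cons_of_neg (by simpa using h), if_neg h, zero_add]
    rw [Finset.sum_congr rfl fun l _ => h2 l, Finset.sum_add_distrib, h1, Finset.sum_ite_eq,
      if_pos (Finset.mem_range.2 (h o List.mem_cons_self)), List.length_cons, add_comm]

/-- The frequent output is an output, and it is frequent. -/
theorem amp_spec {X : List Bool → ℕ} {q : List (List Bool) × (ℕ × (ℕ × List (List Bool)))}
    (hne : q.2.2.2 ≠ []) (h : ∀ l ∈ outs X q, l < q.2.2.1) :
    amp X q < q.2.2.1 ∧ q.2.2.2.length ≤ q.2.2.1 * cnt (amp X q) (outs X q) := by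
  have hlen : (outs X q).length = q.2.2.2.length := by simp [outs]
  have hpos : 0 < (outs X q).length := by rw [hlen]; exact List.length_pos_iff.2 hne
  set F := q.2.2.1 with hF
  have hex : ∃ l, (outs X q).length ≤ F * cnt l (outs X q) := by
    by_contra hcon
    push Not at hcon
    have h1 := cnt_sum F (outs X q) h
    have hF0 : 0 < F := by
      obtain ⟨o, os, ho⟩ := List.exists_cons_of_length_pos hpos
      have := h o (by rw [ho]; simp)
      omega
    have h2 : F * (outs X q).length < F * (outs X q).length := by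
      calc F * (outs X q).length = ∑ l ∈ range F, F * cnt l (outs X q) := by
            rw [← Finset.mul_sum, h1]
        _ < ∑ _l ∈ range F, (outs X q).length :=
            Finset.sum_lt_sum_of_nonempty ⟨0, Finset.mem_range.2 hF0⟩ fun l _ => hcon l
        _ = F * (outs X q).length := by simp
    exact lt_irrefl _ h2
  obtain ⟨l, hl⟩ := hex
  have hmem : l ∈ outs X q := by
    have h1 : 0 < cnt l (outs X q) := by
      by_contra h0
      have h2 : cnt l (outs X q) = 0 := by omega
      rw [h2, mul_zero] at hl
      omega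
    obtain ⟨l', hl'⟩ := List.exists_mem_of_length_pos h1
    obtain ⟨h3, h4⟩ := List.mem_filter.1 hl'
    rw [decide_eq_true_eq] at h4
    rwa [h4] at h3
  have h2 : l ∈ (outs X q).filter fun l => decide ((outs X q).length ≤ F * cnt l (outs X q)) :=
    List.mem_filter.2 ⟨hmem, decide_eq_true hl⟩
  obtain ⟨t, ts, hts⟩ := List.exists_cons_of_ne_nil (List.ne_nil_of_mem h2)
  have h3 : amp X q = t := by
    unfold amp
    rw [hts]
    rfl
  have h4 : t ∈ (outs X q).filter fun l => decide ((outs X q).length ≤ F * cnt l (outs X q)) := by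
    rw [hts]; simp
  obtain ⟨h5, h6⟩ := List.mem_filter.1 h4
  rw [decide_eq_true_eq] at h6
  rw [h3]
  exact ⟨h t h5, hlen ▸ h6⟩

/-- The blocks of the random string. -/
def rsl (k T : ℕ) (R : List Bool) : List (List Bool) := (List.range T).map fun t => blk k t R

theorem rsl_poly {α : Type} [TEnc α] {k T : α → ℕ} {R : α → List Bool} (hk : Poly k)
    (hT : UPoly T) (hR : Poly R) : Poly (fun a => rsl (k a) (T a) (R a)) := by
  unfold rsl
  have e1 : Poly (fun t : α × ℕ => t.1) := NPC.Poly.fst NPC.Poly.id
  exact NPC.Poly.map (l := fun a => List.range (T a)) (F := fun a t => blk (k a) t (R a)) hT.range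
    (Pool.Agent.W320.RL.blk_poly (hk.comp e1) (NPC.Poly.snd NPC.Poly.id) (hR.comp e1))

/-- **Amplification.** If the output is `l` with probability at most `(1 - 1 / q) / F` then `l` is
rarely frequent. -/
theorem amp_good {X : List Bool → ℕ} {qs : List (List Bool)} {a F q k K T l : ℕ} (hF : 1 ≤ F)
    (hq : 1 ≤ q) (hl : F * q * {r : List Bool | r.length = k ∧ X (bits (qs, (a, r))) = l}.ncard ≤
      (q - 1) * 2 ^ k) (hT : K * (4 * F ^ 2 * q ^ 2) ≤ T) :
    K * {R : List Bool | R.length = T * k ∧
      T ≤ F * cnt l (outs X (qs, (a, (F, rsl k T R))))}.ncard ≤ 2 ^ (T * k) := by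
  classical
  rcases Nat.eq_zero_or_pos K with rfl | hK0
  · rw [zero_mul]; exact Nat.zero_le _
  have hT0 : 0 < T := by
    have h11 : 0 < K * (4 * F ^ 2 * q ^ 2) := by positivity
    omega
  set Y : List Bool → ℕ := fun r => if X (bits (qs, (a, r))) = l then 0 else 2 * F * q with hY
  have hFq : q ≤ F * q := Nat.le_mul_of_pos_left _ hF
  have hcard : {r : List Bool | r.length = k ∧ X (bits (qs, (a, r))) = l}.ncard =
      ((BL k).filter fun r => X (bits (qs, (a, r))) = l).card := by
    have h1 : {r : List Bool | r.length = k ∧ X (bits (qs, (a, r))) = l} =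
        ↑((BL k).filter fun r => X (bits (qs, (a, r))) = l) := by
      ext r; simp
    rw [h1, Set.ncard_coe_finset]
  rw [hcard] at hl
  set H := ((BL k).filter fun r => X (bits (qs, (a, r))) = l).card with hH
  have hsum : ∑ r ∈ BL k, Y r + 2 * F * q * H = 2 * F * q * 2 ^ k := by
    have h1 : ∀ r ∈ BL k, Y r + (if X (bits (qs, (a, r))) = l then 2 * F * q else 0) =
        2 * F * q := by
      intro r _
      simp only [hY]
      split_ifs <;> omega
    have h2 := Finset.sum_congr rfl h1
    rw [Finset.sum_add_distrib, Finset.sum_const, smul_eq_mul, ← Finset.sum_filter,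
      Finset.sum_const, smul_eq_mul, ← hH, Pool.Agent.W901.RL.card_BL_nat] at h2
    rw [mul_comm (2 * F * q) H, mul_comm (2 * F * q) (2 ^ k)]
    exact h2
  have hlo : (2 * (F * q) - 2 * q + 2) * 2 ^ k ≤ ∑ r ∈ BL k, Y r := by
    obtain ⟨e, he⟩ : ∃ e, F * q = q + e := ⟨F * q - q, by omega⟩
    obtain ⟨q', hq'⟩ : ∃ q', q = q' + 1 := ⟨q - 1, by omega⟩
    have h1 : 2 * (F * q) - 2 * q + 2 = 2 * e + 2 := by omega
    rw [h1]
    have h2 : q - 1 = q' := by omega
    rw [h2] at hl
    have h3 : 2 * F * q * H = 2 * (F * q * H) := by ring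
    have h4 : 2 * F * q * 2 ^ k = 2 * ((F * q) * 2 ^ k) := by ring
    rw [h3, h4, he] at hsum
    rw [he] at hl
    have h5 : (2 * e + 2) * 2 ^ k + 2 * (q' * 2 ^ k) = 2 * ((q + e) * 2 ^ k) := by
      rw [hq']; ring
    omega
  have hcheb := Pool.Agent.W762.RL.cheb Y (2 * F * q) T K k k (2 * (F * q) - 2 * q + 2) 1
    (fun r => by simp only [hY]; split_ifs <;> omega) le_rfl (by omega) hlo
    (by
      have h1 : K * (2 * F * q) ^ 2 = K * (4 * F ^ 2 * q ^ 2) := by ring
      rw [h1, one_pow, mul_one]
      exact hT)
  refine le_trans (Nat.mul_le_mul_left K (Set.ncard_le_ncard ?_ ?_)) hcheb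
  · rintro R ⟨hR1, hR2⟩
    refine ⟨hR1, fun hcon => ?_⟩
    have h1 : ((List.range T).map fun t => Y ((blk k t R).take k)).sum +
        2 * F * q * cnt l (outs X (qs, (a, (F, rsl k T R)))) = 2 * F * q * T := by
      have h2 : ∀ t ∈ List.range T, (blk k t R).take k = blk k t R := fun t _ => by
        unfold blk
        rw [List.take_take, min_self]
      have h3 : (List.range T).map (fun t => Y ((blk k t R).take k)) =
          (List.range T).map fun t => Y (blk k t R) :=
        List.map_congr_left fun t ht => by rw [h2 t ht]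
      rw [h3]
      have h4 : ∀ n : ℕ, ((List.range n).map fun t => Y (blk k t R)).sum +
          2 * F * q * cnt l (outs X (qs, (a, (F, rsl k n R)))) = 2 * F * q * n := by
        intro n
        induction n with
        | zero => simp [rsl, outs, cnt]
        | succ n ih =>
          have e1 : outs X (qs, (a, (F, rsl k (n + 1) R))) =
              outs X (qs, (a, (F, rsl k n R))) ++ [X (bits (qs, (a, blk k n R)))] := by
            simp only [outs, rsl, List.range_succ, List.map_append, List.map_cons, List.map_nil]
          have e2 : cnt l (outs X (qs, (a, (F, rsl k (n + 1) R)))) =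
              cnt l (outs X (qs, (a, (F, rsl k n R)))) +
                (if X (bits (qs, (a, blk k n R))) = l then 1 else 0) := by
            rw [e1]
            unfold cnt
            rw [List.filter_append, List.length_append]
            congr 1
            by_cases h : X (bits (qs, (a, blk k n R))) = l
            · rw [List.filter_cons_of_pos (by simpa using h), if_pos h]; rfl
            · rw [List.filter_cons_of_neg (by simpa using h), if_neg h]; rfl
          rw [List.range_succ, List.map_append, List.sum_append, List.map_singleton,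
            List.sum_singleton, e2]
          simp only [hY] at ih ⊢
          split_ifs with h
          · have : 2 * F * q * (cnt l (outs X (qs, (a, (F, rsl k n R)))) + 1) =
                2 * F * q * cnt l (outs X (qs, (a, (F, rsl k n R)))) + 2 * F * q := by ring
            rw [this]
            have h5 : 2 * F * q * (n + 1) = 2 * F * q * n + 2 * F * q := by ring
            omega
          · rw [add_zero]
            have h5 : 2 * F * q * (n + 1) = 2 * F * q * n + 2 * F * q := by ring
            omega
      exact h4 T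
    -- the contradiction
    set c := cnt l (outs X (qs, (a, (F, rsl k T R)))) with hc
    set S := ((List.range T).map fun t => Y ((blk k t R).take k)).sum with hS
    obtain ⟨e, he⟩ : ∃ e, F * q = q + e := ⟨F * q - q, by omega⟩
    have h5 : 2 * (F * q) - 2 * q + 2 - 1 = 2 * e + 1 := by omega
    rw [h5] at hcon
    have h6 : 2 * F * q * c = 2 * q * (F * c) := by ring
    have h7 : 2 * q * T ≤ 2 * q * (F * c) := Nat.mul_le_mul_left _ hR2
    have h8 : 2 * F * q * T = 2 * (F * q) * T := by ring
    rw [h6, h8, he] at h1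
    have h9 : T * (2 * e + 1) + 2 * q * T = 2 * (q + e) * T + T := by ring
    omega
  · exact (List.finite_length_eq Bool (T * k)).subset fun r hr => hr.1

end Pool.Agent.TH684.RX
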