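import Pool.Agent.TH684.RX.Eng

/-!
# Counting for random gates
-/

set_option autoImplicit false

namespace Pool.Agent.TH684.RX

open Finset Pool.Agent.NPC Pool.Agent.H579R2.Spt
open Pool.Agent.W901.RL (card_split card_BL_nat)

theorem valB_inj : ∀ {u v : List Bool}, u.length = v.length → valB u = valB v → u = v := by
  intro u
  induction u with
  | nil =>
    intro v h _
    exact (List.length_eq_zero_iff.1 (by simpa using h.symm)).symm
  | cons a u ih =>
    intro v h h'
    cases v with
    | nil => simp at h
    | cons b v =>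
      simp only [List.length_cons, Nat.add_right_cancel_iff] at h
      rw [valB_cons, valB_cons] at h'
      have h1 : a = b ∧ valB u = valB v := by
        cases a <;> cases b <;> simp at h' ⊢ <;> omega
      rw [h1.1, ih h h1.2]

theorem card_val (K l : ℕ) : ((BL K).filter fun u => valB u = l).card ≤ 1 := by
  rw [Finset.card_le_one]
  intro u hu v hv
  rw [Finset.mem_filter, mem_BL] at hu hv
  exact valB_inj (hu.1.trans hv.1.symm) (hu.2.trans hv.2.symm)

theorem card_val_filter (K : ℕ) (Q : ℕ → Prop) [DecidablePred Q] :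
    ((BL K).filter fun u => Q (valB u)).card ≤ ((range (2 ^ K)).filter Q).card := by
  refine Finset.card_le_card_of_injOn valB ?_ ?_
  · intro u hu
    rw [Finset.mem_coe, Finset.mem_filter, mem_BL] at hu
    rw [Finset.mem_coe, Finset.mem_filter, Finset.mem_range]
    refine ⟨?_, hu.2⟩
    have := valB_lt u
    rwa [hu.1] at this
  · intro u hu v hv h
    rw [Finset.mem_coe, Finset.mem_filter, mem_BL] at hu hv
    exact valB_inj (hu.1.trans hv.1.symm) h

/-- The output of the guessing algorithm. -/
def pick (c : ℕ → Bool) (l1 l2 : ℕ) : ℕ := if c l1 = true then l1 else l2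

/-- **Counting.** -/
theorem count_pick (K N0 : ℕ) (c : List Bool → ℕ → Bool) (l : ℕ)
    (h1 : 4 * ((BL N0).filter fun s => c s l = true).card ≤ 3 * 2 ^ N0)
    (h2 : ∀ s ∈ BL N0, 8 * ((range (2 ^ K)).filter fun j => ¬ c s j = true).card ≤ 2 ^ K) :
    8 * ((BL (K + (K + N0))).filter fun r =>
      pick (c ((r.drop K).drop K)) (valB (r.take K)) (valB ((r.drop K).take K)) = l).card ≤
      7 * 2 ^ (K + N0) := by
  classical
  have e0 : ((BL (K + (K + N0))).filter fun r =>
      pick (c ((r.drop K).drop K)) (valB (r.take K)) (valB ((r.drop K).take K)) = l).card =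
      ∑ u ∈ BL K, ((BL (K + N0)).filter fun c' =>
        pick (c (c'.drop K)) (valB u) (valB (c'.take K)) = l).card := by
    have := card_split K (K + N0) (fun u c' =>
      pick (c (c'.drop K)) (valB u) (valB (c'.take K)) = l)
    convert this
  have e1 : ∀ u, ((BL (K + N0)).filter fun c' =>
      pick (c (c'.drop K)) (valB u) (valB (c'.take K)) = l).card =
      ∑ v ∈ BL K, ((BL N0).filter fun s => pick (c s) (valB u) (valB v) = l).card := by
    intro u
    have := card_split K N0 (fun v s => pick (c s) (valB u) (valB v) = l)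
    convert this
  rw [e0, Finset.sum_congr rfl fun u _ => e1 u]
  have e2 : ∀ u v : List Bool, ((BL N0).filter fun s => pick (c s) (valB u) (valB v) = l).card ≤
      (if valB u = l then ((BL N0).filter fun s => c s l = true).card else 0) +
      (if valB v = l then ((BL N0).filter fun s => ¬ c s (valB u) = true).card else 0) := by
    intro u v
    have h3 : ((BL N0).filter fun s => pick (c s) (valB u) (valB v) = l) ⊆
        (if valB u = l then ((BL N0).filter fun s => c s l = true) else ∅) ∪
        (if valB v = l then ((BL N0).filter fun s => ¬ c s (valB u) = true) else ∅) := by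
      intro s hs
      rw [Finset.mem_filter] at hs
      obtain ⟨hs1, hs2⟩ := hs
      rw [Finset.mem_union]
      unfold pick at hs2
      by_cases h : c s (valB u) = true
      · left
        rw [if_pos h] at hs2
        rw [if_pos hs2, Finset.mem_filter]
        exact ⟨hs1, by rw [← hs2]; exact h⟩
      · right
        rw [if_neg h] at hs2
        rw [if_pos hs2, Finset.mem_filter]
        exact ⟨hs1, h⟩
    refine (Finset.card_le_card h3).trans ((Finset.card_union_le _ _).trans ?_)
    refine Nat.add_le_add (le_of_eq ?_) (le_of_eq ?_)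
    · split_ifs <;> simp
    · split_ifs <;> simp
  have e3 := Finset.sum_le_sum fun u (_ : u ∈ BL K) =>
    Finset.sum_le_sum fun v (_ : v ∈ BL K) => e2 u v
  refine (Nat.mul_le_mul_left 8 e3).trans ?_
  have e4 : ∑ u ∈ BL K, ∑ v ∈ BL K,
      ((if valB u = l then ((BL N0).filter fun s => c s l = true).card else 0) +
      (if valB v = l then ((BL N0).filter fun s => ¬ c s (valB u) = true).card else 0)) =
      2 ^ K * (((BL K).filter fun u => valB u = l).card *
        ((BL N0).filter fun s => c s l = true).card) +
      ((BL K).filter fun u => valB u = l).card *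
        ∑ u ∈ BL K, ((BL N0).filter fun s => ¬ c s (valB u) = true).card := by
    simp only [Finset.sum_add_distrib]
    congr 1
    · simp only [Finset.sum_const, card_BL_nat, smul_eq_mul]
      rw [← Finset.mul_sum, ← Finset.sum_filter, Finset.sum_const, smul_eq_mul]
    · rw [Finset.mul_sum]
      refine Finset.sum_congr rfl fun u _ => ?_
      rw [← Finset.sum_filter, Finset.sum_const, smul_eq_mul]
  rw [e4]
  have e5 : ∑ u ∈ BL K, ((BL N0).filter fun s => ¬ c s (valB u) = true).card =
      ∑ s ∈ BL N0, ((BL K).filter fun u => ¬ c s (valB u) = true).card := by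
    simp only [Finset.card_filter]
    exact Finset.sum_comm
  have e6 : 8 * ∑ s ∈ BL N0, ((BL K).filter fun u => ¬ c s (valB u) = true).card ≤
      2 ^ N0 * 2 ^ K := by
    rw [Finset.mul_sum]
    refine (Finset.sum_le_sum (g := fun _ => 2 ^ K) fun s hs => ?_).trans ?_
    · exact (Nat.mul_le_mul_left 8 (card_val_filter K fun j => ¬ c s j = true)).trans (h2 s hs)
    · rw [Finset.sum_const, card_BL_nat, smul_eq_mul]
  rw [← e5] at e6
  set a := ((BL K).filter fun u => valB u = l).card
  set b := ((BL N0).filter fun s => c s l = true).card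
  set e := ∑ u ∈ BL K, ((BL N0).filter fun s => ¬ c s (valB u) = true).card
  have ha : a ≤ 1 := card_val K l
  have h3 : a * b ≤ b := by
    calc a * b ≤ 1 * b := Nat.mul_le_mul_right _ ha
      _ = b := one_mul b
  have h4 : a * e ≤ e := by
    calc a * e ≤ 1 * e := Nat.mul_le_mul_right _ ha
      _ = e := one_mul e
  have h5 : 8 * (2 ^ K * (a * b)) ≤ 6 * 2 ^ (K + N0) := by
    calc 8 * (2 ^ K * (a * b)) ≤ 8 * (2 ^ K * b) :=
          Nat.mul_le_mul_left _ (Nat.mul_le_mul_left _ h3)
      _ = 2 * 2 ^ K * (4 * b) := by ring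
      _ ≤ 2 * 2 ^ K * (3 * 2 ^ N0) := Nat.mul_le_mul_left _ h1
      _ = 6 * 2 ^ (K + N0) := by rw [pow_add]; ring
  have h6 : 8 * (a * e) ≤ 2 ^ (K + N0) := by
    calc 8 * (a * e) ≤ 8 * e := Nat.mul_le_mul_left _ h4
      _ ≤ 2 ^ N0 * 2 ^ K := e6
      _ = 2 ^ (K + N0) := by rw [pow_add]; ring
  calc 8 * (2 ^ K * (a * b) + a * e) = 8 * (2 ^ K * (a * b)) + 8 * (a * e) := by ring
    _ ≤ 6 * 2 ^ (K + N0) + 2 ^ (K + N0) := Nat.add_le_add h5 h6
    _ = 7 * 2 ^ (K + N0) := by ring

/-- **Markov.** If every position is wrong with probability at most `1 / (32 E)`, and a good string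
has more than `m / (24 E)` wrong positions, then a quarter of the strings are not good. -/
theorem count_wrong (N0 m E : ℕ) (hm : 0 < m) (bad : ℕ → List Bool → Prop) (good : List Bool → Prop)
    [∀ t, DecidablePred (bad t)] [DecidablePred good]
    (h1 : ∀ t < m, 32 * E * ((BL N0).filter (bad t)).card ≤ 2 ^ N0)
    (h2 : ∀ s ∈ BL N0, good s → m ≤ 24 * ((range m).filter fun t => bad t s).card * E) :
    4 * ((BL N0).filter good).card ≤ 3 * 2 ^ N0 := by
  classical
  have e1 : ∑ s ∈ BL N0, ((range m).filter fun t => bad t s).card =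
      ∑ t ∈ range m, ((BL N0).filter (bad t)).card := by
    simp only [Finset.card_filter]
    exact Finset.sum_comm
  have e2 : 32 * E * ∑ s ∈ BL N0, ((range m).filter fun t => bad t s).card ≤ m * 2 ^ N0 := by
    rw [e1, Finset.mul_sum]
    refine (Finset.sum_le_sum fun t ht => h1 t (Finset.mem_range.1 ht)).trans ?_
    rw [Finset.sum_const, card_range, smul_eq_mul]
  have e3 : ((BL N0).filter good).card * m ≤
      24 * E * ∑ s ∈ BL N0, ((range m).filter fun t => bad t s).card := by
    rw [Finset.mul_sum]
    calc ((BL N0).filter good).card * m = ∑ _s ∈ (BL N0).filter good, m := by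
          rw [Finset.sum_const, smul_eq_mul]
      _ ≤ ∑ s ∈ (BL N0).filter good, 24 * E * ((range m).filter fun t => bad t s).card := by
          refine Finset.sum_le_sum fun s hs => ?_
          rw [Finset.mem_filter] at hs
          refine (h2 s hs.1 hs.2).trans (le_of_eq (by ring))
      _ ≤ _ := Finset.sum_le_sum_of_subset (Finset.filter_subset _ _)
  set W := ∑ s ∈ BL N0, ((range m).filter fun t => bad t s).card
  set g := ((BL N0).filter good).card
  have e4 : 4 * g * m ≤ 3 * 2 ^ N0 * m := by
    calc 4 * g * m = 4 * (g * m) := by ring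
      _ ≤ 4 * (24 * E * W) := Nat.mul_le_mul_left _ e3
      _ = 3 * (32 * E * W) := by ring
      _ ≤ 3 * (m * 2 ^ N0) := Nat.mul_le_mul_left _ e2
      _ = 3 * 2 ^ N0 * m := by ring
  exact Nat.le_of_mul_le_mul_right e4 hm

end Pool.Agent.TH684.RX
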