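import Pool.Agent.TH684.EX.Defs
import Pool.Agent.TH684.LT.Gate
import Pool.Agent.W920.NL.DefsR

/-!
# Randomised exclusion and threshold gates with random inputs: definitions

Polynomial time is Mathlib's `Turing.TM2ComputableInPolyTime` (through `Pool.Agent.NPC.PolyTime`).
-/

set_option autoImplicit false

namespace Pool.Agent.TH684.RX

open Pool.Agent.NPC Pool.Agent.H251R5.PQ Pool.Agent.TH684.EX Pool.Agent.TH684.LT

/-- A probabilistic polynomial-time algorithm `X` guesses the vector of the answers to questions about
membership in `A`, among the first `F` vectors of the family given by `L`, worse than at random. More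
precisely, for every `n` there are a number `m` of questions, a number `a` (advice) and a number `F`,
all at most `n ^ b + b`, such that for every list of `m` strings of length at most `n`: for all
sequences `r` of `ρ n` random bits the output of `X` on the list, `a` and `r` is less than `F`; and if
the vector number `l` is the vector of the answers then the output is `l` with probability at most
`(1 - 1 / (n ^ b + b)) / F`. -/
def AntiGuess (L A : Set (List Bool)) : Prop :=
  ∃ (X : List Bool → ℕ) (ρ : Polynomial ℕ) (b : ℕ), PolyTime (fun z => bits (X z)) ∧
    ∀ n : ℕ, ∃ m a F : ℕ, m ≤ n ^ b + b ∧ a ≤ n ^ b + b ∧ F ≤ n ^ b + b ∧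
      ∀ qs : List (List Bool), qs.length = m → (∀ y ∈ qs, y.length ≤ n) →
        (∀ r : List Bool, r.length = ρ.eval n → X (bits (qs, (a, r))) < F) ∧
        ∀ l : ℕ, answers A qs = vec L m l →
          F * (n ^ b + b) * {r : List Bool | r.length = ρ.eval n ∧ X (bits (qs, (a, r))) = l}.ncard ≤
            (n ^ b + b - 1) * 2 ^ ρ.eval n

/-- A probabilistic polynomial-time algorithm finds, in a list of `m` strings, a position `i` such that
the string number `i` is not the only member of `A`, with a probability of error which is smaller
than `1 / m`, the one for random `i`. More precisely, for every `n` there are numbers `m ≥ 1` and `a`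
(advice), both at most `n ^ b + b`, such that for every list of `m` strings of length at most `n`: for
all sequences `r` of `ρ n` random bits the output of `X` on the list, `a` and `r` is less than `m`; and
for every `i` such that the string number `i` is the only member of `A`, the output is `i` with
probability at most `(1 - 1 / (n ^ b + b)) / m`. -/
def FindNotOnly (A : Set (List Bool)) : Prop :=
  ∃ (X : List Bool → ℕ) (ρ : Polynomial ℕ) (b : ℕ), PolyTime (fun z => bits (X z)) ∧
    ∀ n : ℕ, ∃ m a : ℕ, 1 ≤ m ∧ m ≤ n ^ b + b ∧ a ≤ n ^ b + b ∧
      ∀ qs : List (List Bool), qs.length = m → (∀ y ∈ qs, y.length ≤ n) →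
        (∀ r : List Bool, r.length = ρ.eval n → X (bits (qs, (a, r))) < m) ∧
        ∀ i : ℕ, (∀ j < m, (qs.getD j [] ∈ A ↔ j = i)) →
          m * (n ^ b + b) * {r : List Bool | r.length = ρ.eval n ∧ X (bits (qs, (a, r))) = i}.ncard ≤
            (n ^ b + b - 1) * 2 ^ ρ.eval n

/-- The set `A` is decided by one threshold gate with random inputs: there are a polynomial-time
function `f` whose values are integer vectors (lists of integers) and, for every `n`, numbers `a`
(advice), at most `n ^ b + b`, and `D` (dimension), real weights and a threshold such that for all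
strings `x` of length at most `n` and all sequences `r` of `ρ |x|` random bits the vector
`f (x, a, r)` has at most `D` entries, and the probability, for random `r`, that the answer of the
gate to `f (x, a, r)` is wrong is at most `1 / (32 (D + 1))`. The weights and the threshold are
arbitrary, and may depend on `n` in any way. -/
def RandomGate (A : Set (List Bool)) : Prop :=
  ∃ (f : List Bool → List ℤ) (ρ : Polynomial ℕ) (b : ℕ), PolyTime (fun z => bits (f z)) ∧
    ∀ n : ℕ, ∃ a D : ℕ, a ≤ n ^ b + b ∧ ∃ (w : ℕ → ℝ) (θ : ℝ), ∀ x : List Bool, x.length ≤ n →
      (∀ r : List Bool, r.length = ρ.eval x.length → (f (bits (x, (a, r)))).length ≤ D) ∧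
      32 * (D + 1) * {r : List Bool | r.length = ρ.eval x.length ∧
        ¬ (x ∈ A ↔ Gate w θ (f (bits (x, (a, r)))))}.ncard ≤ 2 ^ ρ.eval x.length

end Pool.Agent.TH684.RX
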