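import Pool.Agent.TH684.RX.Amp
import Pool.Agent.TH684.EX.NP
import Pool.Agent.W690.RL.RPW

/-!
# Randomised exclusion for an `NP`-hard set gives `NP ⊆ RP`
-/

set_option autoImplicit false

namespace Pool.Agent.TH684.RX

open Finset Pool.Agent.NPC Pool.Agent.H579R2.Spt Pool.Agent.H251R5.PQ Pool.Agent.W901.AT
open Pool.Agent.W901.RL (blk blk_length)
open Pool.Agent.W901.FH (hx hx_poly pow_polyc pow_upolyc)
open Pool.Agent.TH684.EX (Qu ses ses_poly LabE labE_np)
open Pool.Agent.TH684.CX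

theorem ncard_BL (n : ℕ) (P : List Bool → Prop) [DecidablePred P] :
    {r : List Bool | r.length = n ∧ P r}.ncard = ((BL n).filter P).card := by
  have h1 : {r : List Bool | r.length = n ∧ P r} = ↑((BL n).filter fun r => P r) := by
    ext r; simp
  rw [h1, Set.ncard_coe_finset]

/-- The vector of the answers is guessed worse than at random. -/
def AntiG (A : Set (List Bool)) (lam : ℕ × (ℕ × ℕ) → Bool) (b : ℕ) (ρ : Polynomial ℕ)
    (X : List Bool → ℕ) : Prop :=
  ∀ n : ℕ, ∃ m a F : ℕ, m ≤ n ^ b + b ∧ a ≤ n ^ b + b ∧ F ≤ n ^ b + b ∧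
    ∀ qs : List (List Bool), qs.length = m → (∀ y ∈ qs, y.length ≤ n) →
      (∀ r : List Bool, r.length = ρ.eval n → X (bits (qs, (a, r))) < F) ∧
      ∀ l : ℕ, answers A qs = (List.range m).map (fun i => lam (m, (l, i))) →
        F * (n ^ b + b) * {r : List Bool | r.length = ρ.eval n ∧ X (bits (qs, (a, r))) = l}.ncard ≤
          (n ^ b + b - 1) * 2 ^ ρ.eval n

/-- The number of random bits of one run. -/
noncomputable def kR (pp ρ : Polynomial ℕ) (e1 b : ℕ) (x : List Bool) : ℕ := ρ.eval (NE pp e1 b x)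

/-- The number of bad events. -/
noncomputable def CR (pp : Polynomial ℕ) (e1 b : ℕ) (x : List Bool) : ℕ :=
  (nE pp x + 1) * PE pp e1 b x ^ 3 * (ME pp e1 b x + 1)

/-- The number of runs. -/
noncomputable def TR (pp : Polynomial ℕ) (e1 b : ℕ) (x : List Bool) : ℕ :=
  8 * CR pp e1 b x * (4 * ME pp e1 b x ^ 2 * ME pp e1 b x ^ 2)

/-- The search for all values of the numbers. -/
noncomputable def candR (X : List Bool → ℕ) (qf : Qu → List Bool) (pp ρ : Polynomial ℕ)
    (e1 b : ℕ) (q : List Bool × List Bool) : List (List Bool) :=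
  (List.range (ME pp e1 b q.1 + 1)).flatMap fun m => (List.range (ME pp e1 b q.1 + 1)).flatMap
    fun a => (List.range (ME pp e1 b q.1 + 1)).flatMap fun F =>
      alc (amp X) qf (a, (F, rsl (kR pp ρ e1 b q.1) (TR pp e1 b q.1) q.2))
        (min m (ME pp e1 b q.1)) (PE pp e1 b q.1) (ME pp e1 b q.1 + 1) (nE pp q.1) q.1

variable {pp ρ : Polynomial ℕ} {e1 b : ℕ}

theorem kR_poly : UPoly (kR pp ρ e1 b) := UPoly.eval NE_poly ρ

theorem CR_poly : UPoly (CR pp e1 b) :=
  ((nE_poly.add (UPoly.const 1)).mul (pow_upolyc PE_poly 3)).mul (ME_poly.add (UPoly.const 1))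

theorem TR_poly : UPoly (TR pp e1 b) :=
  ((UPoly.const 8).mul CR_poly).mul (((UPoly.const 4).mul (pow_upolyc ME_poly 2)).mul
    (pow_upolyc ME_poly 2))

theorem candR_poly {X : List Bool → ℕ} (hX : Poly X) {qf : Qu → List Bool} (hq : Poly qf) :
    Poly (candR X qf pp ρ e1 b) := by
  unfold candR
  have hM : UPoly (ME pp e1 b) := ME_poly
  have hP : UPoly (PE pp e1 b) := PE_poly
  have hn : UPoly (nE pp) := nE_poly
  have e1' : Poly (fun q : List Bool × List Bool => q.1) := NPC.Poly.fst NPC.Poly.id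
  have e2' : Poly (fun q : List Bool × List Bool => q.2) := NPC.Poly.snd NPC.Poly.id
  have hM1 := hM.comp e1'
  have hrs : Poly (fun q : List Bool × List Bool =>
      rsl (kR pp ρ e1 b q.1) (TR pp e1 b q.1) q.2) :=
    rsl_poly ((kR_poly (pp := pp) (ρ := ρ) (e1 := e1) (b := b)).comp e1').toPoly
      ((TR_poly (pp := pp) (e1 := e1) (b := b)).comp e1') e2'
  refine NPC.Poly.flatMap (l := fun q : List Bool × List Bool => List.range (ME pp e1 b q.1 + 1))
    (F := fun q m => (List.range (ME pp e1 b q.1 + 1)).flatMap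
    fun a => (List.range (ME pp e1 b q.1 + 1)).flatMap fun F =>
      alc (amp X) qf (a, (F, rsl (kR pp ρ e1 b q.1) (TR pp e1 b q.1) q.2))
        (min m (ME pp e1 b q.1)) (PE pp e1 b q.1) (ME pp e1 b q.1 + 1) (nE pp q.1) q.1)
    (hM1.add (UPoly.const 1)).range ?_
  have f1 : Poly (fun t : (List Bool × List Bool) × ℕ => t.1) := NPC.Poly.fst NPC.Poly.id
  have f2 : Poly (fun t : (List Bool × List Bool) × ℕ => t.2) := NPC.Poly.snd NPC.Poly.id
  refine NPC.Poly.flatMap
    (l := fun t : (List Bool × List Bool) × ℕ => List.range (ME pp e1 b t.1.1 + 1))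
    (F := fun t a => (List.range (ME pp e1 b t.1.1 + 1)).flatMap fun F =>
      alc (amp X) qf (a, (F, rsl (kR pp ρ e1 b t.1.1) (TR pp e1 b t.1.1) t.1.2))
        (min t.2 (ME pp e1 b t.1.1)) (PE pp e1 b t.1.1) (ME pp e1 b t.1.1 + 1) (nE pp t.1.1) t.1.1)
    ((hM1.comp f1).add (UPoly.const 1)).range ?_
  have g1 : Poly (fun t : ((List Bool × List Bool) × ℕ) × ℕ => t.1) := NPC.Poly.fst NPC.Poly.id
  have g2 : Poly (fun t : ((List Bool × List Bool) × ℕ) × ℕ => t.2) := NPC.Poly.snd NPC.Poly.id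
  have f11 := f1.comp g1
  refine NPC.Poly.flatMap
    (l := fun t : ((List Bool × List Bool) × ℕ) × ℕ => List.range (ME pp e1 b t.1.1.1 + 1))
    (F := fun t F =>
      alc (amp X) qf (t.2, (F, rsl (kR pp ρ e1 b t.1.1.1) (TR pp e1 b t.1.1.1) t.1.1.2))
        (min t.1.2 (ME pp e1 b t.1.1.1)) (PE pp e1 b t.1.1.1) (ME pp e1 b t.1.1.1 + 1)
        (nE pp t.1.1.1) t.1.1.1)
    ((hM1.comp f11).add (UPoly.const 1)).range ?_
  have h1 : Poly (fun t : (((List Bool × List Bool) × ℕ) × ℕ) × ℕ => t.1) :=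
    NPC.Poly.fst NPC.Poly.id
  have h2 : Poly (fun t : (((List Bool × List Bool) × ℕ) × ℕ) × ℕ => t.2) :=
    NPC.Poly.snd NPC.Poly.id
  have f111 := f11.comp h1
  have hx1 := e1'.comp f111
  have u3 : UPoly (fun t : (((List Bool × List Bool) × ℕ) × ℕ) × ℕ =>
      min t.1.1.2 (ME pp e1 b t.1.1.1.1)) :=
    UPoly.of_le (NPC.Poly.min ((f2.comp g1).comp h1) (hM.comp hx1).toPoly) (hM.comp hx1)
      (fun _ => min_le_right _ _)
  exact alc_poly (amp_poly hX) hq (NPC.Poly.pair (g2.comp h1) (NPC.Poly.pair h2 (hrs.comp f111)))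
    u3 (hP.comp hx1) (fun a => PE_pos _) ((hM.comp hx1).add (UPoly.const 1)).toPoly
    (hn.comp hx1) hx1

theorem ME_pos (x : List Bool) : 1 ≤ ME pp e1 b x := by
  have h1 : 0 < BE pp e1 b x := by unfold BE; omega
  have h2 : 0 < NE pp e1 b x := pow_pos h1 e1
  have h3 : 0 < (NE pp e1 b x) ^ b := pow_pos h2 b
  unfold ME
  omega

theorem rsl_mem {k T : ℕ} {R : List Bool} (hR : R.length = T * k) :
    ∀ r ∈ rsl k T R, r.length = k := by
  intro r hr
  obtain ⟨t, ht, rfl⟩ := List.mem_map.1 hr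
  exact blk_length (m := T) (List.mem_range.1 ht) (by omega)

/-- **The candidates contain the string with high probability.** -/
theorem candR_good {A : Set (List Bool)} {lam : ℕ × (ℕ × ℕ) → Bool} {X : List Bool → ℕ}
    (hex : AntiG A lam b ρ X) {qf : Qu → List Bool} {p1 : Polynomial ℕ}
    (hp1 : ∀ q, sz (qf q) ≤ p1.eval (sz q)) (he1 : ∀ n, 2 ≤ n → (p1.comp p3).eval n ≤ n ^ e1)
    {x w : List Bool} (hwlen : w.length ≤ pp.eval x.length)
    (hlab : ∀ m P F j s i : ℕ, qf (x, (m, (P, (F, (j, (s, i)))))) ∈ A ↔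
        lam (m, (hx P F s (w.take j), i)) = true) :
    8 * {R : List Bool | R.length = TR pp e1 b x * kR pp ρ e1 b x ∧
      w ∉ candR X qf pp ρ e1 b (x, R)}.ncard ≤ 2 ^ (TR pp e1 b x * kR pp ρ e1 b x) := by
  classical
  obtain ⟨m, a, F, hm, ha, hF, hXF⟩ := hex (NE pp e1 b x)
  change m ≤ ME pp e1 b x at hm
  change a ≤ ME pp e1 b x at ha
  change F ≤ ME pp e1 b x at hF
  set M := ME pp e1 b x with hM
  set P := PE pp e1 b x with hP
  set n := nE pp x with hn
  set k := kR pp ρ e1 b x with hk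
  set T := TR pp e1 b x with hT
  set C := CR pp e1 b x with hC
  have hCe : C = (n + 1) * P ^ 3 * (M + 1) := rfl
  have hM1 : 1 ≤ M := ME_pos x
  have hP1 : 1 ≤ P := PE_pos x
  have hCpos : 0 < C := by rw [hCe]; positivity
  have hF1 : 1 ≤ F := by
    have h1 := (hXF (List.replicate m []) (by simp) (by
      intro y hy
      rw [List.eq_of_mem_replicate hy]
      exact Nat.zero_le _)).1 (List.replicate k false) (by simp [hk, kR])
    omega
  -- the sessions
  set sesn : ℕ → ℕ → List (List Bool) := fun j s => ses qf m P (M + 1) x j s with hsesn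
  have hlen : ∀ j ≤ n, ∀ s < P ^ 3, (sesn j s).length = m ∧
      ∀ y ∈ sesn j s, y.length ≤ NE pp e1 b x := by
    intro j hj s hs
    exact ⟨by simp [hsesn, ses], ses_len hp1 he1 hm hj hs⟩
  -- the bad events
  set Bad : ℕ × (ℕ × ℕ) → List Bool → Prop := fun i R =>
    answers A (sesn i.1 i.2.1) = (List.range m).map (fun i' => lam (m, (i.2.2, i'))) ∧
      T ≤ F * cnt i.2.2 (outs X (sesn i.1 i.2.1, (a, (F, rsl k T R)))) with hBad
  set I : Finset (ℕ × (ℕ × ℕ)) := (range (n + 1)) ×ˢ ((range (P ^ 3)) ×ˢ (range F)) with hI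
  have hone : ∀ i ∈ I, 8 * C * ((BL (T * k)).filter (Bad i)).card ≤ 2 ^ (T * k) := by
    rintro ⟨j, s, l⟩ hi
    simp only [hI, Finset.mem_product, Finset.mem_range] at hi
    obtain ⟨hj, hs, hl⟩ := hi
    by_cases hans : answers A (sesn j s) = (List.range m).map (fun i' => lam (m, (l, i')))
    · obtain ⟨h1, h2⟩ := hlen j (by omega) s hs
      have h3 := (hXF (sesn j s) h1 h2).2 l hans
      have h4 := amp_good (X := X) (qs := sesn j s) (a := a) (F := F) (q := M)
        (k := k) (K := 8 * C) (T := T) (l := l) hF1 hM1 h3 (by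
          rw [hT, TR]
          refine Nat.mul_le_mul_left _ ?_
          refine Nat.mul_le_mul_right _ (Nat.mul_le_mul_left _ ?_)
          exact Nat.pow_le_pow_left hF 2)
      rw [ncard_BL] at h4
      refine le_trans (Nat.mul_le_mul_left _ (Finset.card_le_card ?_)) h4
      intro R hR
      rw [Finset.mem_filter] at hR ⊢
      exact ⟨hR.1, hR.2.2⟩
    · have h1 : (BL (T * k)).filter (Bad (j, (s, l))) = ∅ := by
        refine Finset.filter_eq_empty_iff.2 fun R _ hR => hans hR.1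
      rw [h1]
      simp
  -- outside of the bad events the string is found
  have hsub : (BL (T * k)).filter (fun R => w ∉ candR X qf pp ρ e1 b (x, R)) ⊆
      I.biUnion fun i => (BL (T * k)).filter (Bad i) := by
    intro R hR
    rw [Finset.mem_filter, mem_BL] at hR
    obtain ⟨hR1, hR2⟩ := hR
    by_contra hcon
    apply hR2
    have hnb : ∀ j ≤ n, ∀ s < P ^ 3, ∀ l < F, ¬ Bad (j, (s, l)) R := by
      intro j hj s hs l hl hb
      refine hcon (Finset.mem_biUnion.2 ⟨(j, (s, l)), ?_, Finset.mem_filter.2 ⟨mem_BL.2 hR1, hb⟩⟩)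
      simp only [hI, Finset.mem_product, Finset.mem_range]
      exact ⟨by omega, hs, hl⟩
    have hT0 : 0 < T := by rw [hT, TR]; positivity
    have hmem : w ∈ alc (amp X) qf (a, (F, rsl k T R)) m P (M + 1) n x := by
      refine alc_mem (A := A) (lam := lam) hwlen (fun P F j s i => hlab m P F j s i) ?_
      intro j hj s hs
      obtain ⟨h1, h2⟩ := hlen j hj s hs
      obtain ⟨h3, -⟩ := hXF (sesn j s) h1 h2
      have h4 := amp_spec (X := X) (q := (sesn j s, (a, (F, rsl k T R)))) (by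
        intro h
        have h5 : (rsl k T R).length = T := by simp [rsl]
        change rsl k T R = [] at h
        rw [h] at h5
        simp at h5
        omega) (by
        intro l hl
        obtain ⟨r, hr, rfl⟩ := List.mem_map.1 hl
        exact h3 r (rsl_mem hR1 r hr))
      obtain ⟨h5, h6⟩ := h4
      simp only at h5 h6
      refine ⟨(h5.le).trans hF, fun hans => ?_⟩
      refine hnb j hj s hs _ h5 ⟨hans, ?_⟩
      have h7 : (rsl k T R).length = T := by simp [rsl]
      rw [h7] at h6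
      exact h6
    unfold candR
    refine List.mem_flatMap.2 ⟨m, List.mem_range.2 (Nat.lt_succ_of_le hm), ?_⟩
    refine List.mem_flatMap.2 ⟨a, List.mem_range.2 (Nat.lt_succ_of_le ha), ?_⟩
    refine List.mem_flatMap.2 ⟨F, List.mem_range.2 (Nat.lt_succ_of_le hF), ?_⟩
    change w ∈ alc (amp X) qf (a, (F, rsl k T R)) (min m M) P (M + 1) n x
    rw [min_eq_left hm]
    exact hmem
  rw [ncard_BL]
  have h1 := (Finset.card_le_card hsub).trans Finset.card_biUnion_le
  have h2 : 8 * C * ∑ i ∈ I, ((BL (T * k)).filter (Bad i)).card ≤ I.card * 2 ^ (T * k) := by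
    rw [Finset.mul_sum]
    exact (Finset.sum_le_sum hone).trans (le_of_eq (by rw [Finset.sum_const, smul_eq_mul]))
  have h3 : I.card ≤ C := by
    rw [hI, Finset.card_product, Finset.card_product, Finset.card_range, Finset.card_range,
      Finset.card_range, hCe, ← mul_assoc]
    exact Nat.mul_le_mul_left _ (by omega)
  have h4 : C * (8 * ((BL (T * k)).filter (fun R => w ∉ candR X qf pp ρ e1 b (x, R))).card) ≤
      C * 2 ^ (T * k) := by
    calc C * (8 * ((BL (T * k)).filter (fun R => w ∉ candR X qf pp ρ e1 b (x, R))).card) =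
          8 * C * ((BL (T * k)).filter (fun R => w ∉ candR X qf pp ρ e1 b (x, R))).card := by ring
      _ ≤ 8 * C * ∑ i ∈ I, ((BL (T * k)).filter (Bad i)).card := Nat.mul_le_mul_left _ h1
      _ ≤ I.card * 2 ^ (T * k) := h2
      _ ≤ C * 2 ^ (T * k) := Nat.mul_le_mul_right _ h3
  exact Nat.le_of_mul_le_mul_left h4 hCpos

/-- **Randomised exclusion for an `NP`-hard set gives `NP ⊆ RP`.** -/
theorem rp_of_anti {A : Set (List Bool)} (hA : NPHard A) {lam : ℕ × (ℕ × ℕ) → Bool}
    (hlam : Poly lam) {b : ℕ} {ρ : Polynomial ℕ} {X : List Bool → ℕ} (hX : Poly X)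
    (hex : AntiG A lam b ρ X) : ∀ L : Set (List Bool), InNP L → Pool.Agent.W920.NL.InRP L := by
  refine Pool.Agent.W690.RL.rpw fun V0 hV0 pp => ?_
  have hR : Poly (fun q : List Bool × (List Bool × List Bool) => ver V0 pp q.1 q.2.1) :=
    (ver_poly hV0 pp).comp (NPC.Poly.pair (NPC.Poly.fst NPC.Poly.id)
      (NPC.Poly.fst (NPC.Poly.snd NPC.Poly.id)))
  obtain ⟨f, hf, hfA⟩ := hA _ (labE_np hR pp hlam)
  have hq : Poly (fun q : Qu => f (bits q)) := (PIso.poly_iff.2 hf).comp bits_poly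
  obtain ⟨p1, hp1⟩ := hq.sz_le
  obtain ⟨e1, he1⟩ := exists_pow_bound (p1.comp p3)
  refine ⟨candR X (fun q => f (bits q)) pp ρ e1 b,
    fun x => TR pp e1 b x * kR pp ρ e1 b x, candR_poly hX hq, TR_poly.mul kR_poly,
    fun x w hw huniq => ?_⟩
  refine candR_good hex hp1 he1 (ver_iff.1 hw).1 fun m P F j s i => ?_
  rw [← hfA, bits_mem_lang]
  unfold LabE
  constructor
  · rintro ⟨y', w', hw', h⟩
    rw [huniq y' hw'.2.2] at h
    exact h
  · intro h
    exact ⟨w, [], ⟨(ver_iff.1 hw).1, Nat.zero_le _, hw⟩, h⟩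

end Pool.Agent.TH684.RX
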