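import Pool.Agent.TH684.RX.Rob
import Pool.Agent.TH684.LT.PolyT

/-!
# Certified labels: most labels are far from all half-spaces
-/

set_option autoImplicit false

namespace Pool.Agent.TH684.RX

open Matrix Finset Pool.Agent.NPC Pool.Agent.TH684.LT
open Pool.Agent.H579R2.Spt (par sgn par_orth par_norm par_poly)

/-- **The exclusion, with errors.** -/
theorem exclude_main_r {d m : ℕ} (B H : ℕ) (hH : 1 ≤ H) (F : Fin m → Fin d → ℤ)
    (hF : ∀ t j, |F t j| ≤ H)
    (hB2 : d * (d.factorial * H ^ d) * m ^ d < B) (hm : 1152 * d ^ 2 < m)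
    (e : Fin m → ℕ) (he : ∀ t, d * (d.factorial * H ^ d) ^ 2 ≤ 4 ^ e t)
    (hflat : ∀ t, (m : ℝ) * qf (QM fun t => (2 : ℝ) ^ e t • fun j => (pert B F t j : ℝ))
      ((2 : ℝ) ^ e t • fun j => (pert B F t j : ℝ)) ≤ 4 * d)
    (M0 M : Fin m → ℤ) (hM0 : ∀ t, M0 t = 1 ∨ M0 t = -1) (hM : ∀ t, M t = 1 ∨ M t = -1)
    (Bad : Finset (Fin m)) (hbad : ∀ t, t ∉ Bad → M0 t = M t) (hcard : 24 * Bad.card * d ≤ m)
    (hq : qf (QM fun t => (2 : ℝ) ^ e t • fun j => (pert B F t j : ℝ))
      (∑ t, (M0 t : ℝ) • ((2 : ℝ) ^ e t • fun j => (pert B F t j : ℝ))) ≤ 8 * d) :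
    ¬ ∃ w : Fin d → ℝ, ∀ t, 0 < (M t : ℝ) * ∑ j, w j * (F t j : ℝ) := by
  rintro ⟨w, hw⟩
  have hm1 : 1 ≤ m := by omega
  set t0 : Fin m := ⟨0, by omega⟩ with ht0
  -- scale
  obtain ⟨δ, hδ, hδ2⟩ : ∃ δ : ℝ, 0 < δ ∧ ∀ t, δ ≤ (M t : ℝ) * ∑ j, w j * (F t j : ℝ) := by
    obtain ⟨t1, _, ht1⟩ := Finset.exists_min_image (univ : Finset (Fin m))
      (fun t => (M t : ℝ) * ∑ j, w j * (F t j : ℝ)) ⟨t0, Finset.mem_univ _⟩
    exact ⟨_, hw t1, fun t => ht1 t (Finset.mem_univ t)⟩
  obtain ⟨z, hz1, hz2⟩ := small_weights (fun t j => M t * F t j) (fun j => w j / δ) (by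
    intro t
    have h1 : ∑ j, w j / δ * ((M t * F t j : ℤ) : ℝ) =
        ((M t : ℝ) * ∑ j, w j * (F t j : ℝ)) / δ := by
      rw [Finset.mul_sum, Finset.sum_div]
      refine Finset.sum_congr rfl fun j _ => ?_
      push_cast; ring
    rw [h1, le_div_iff₀ hδ, one_mul]
    exact hδ2 t) (H : ℤ) (by exact_mod_cast hH) (by
    intro t j
    rw [abs_mul]
    rcases hM t with h | h <;> rw [h] <;> simpa using hF t j)
  have hz1' : ∀ t, 1 ≤ M t * ∑ j, z j * F t j := by
    intro t
    have := hz1 t
    rw [Finset.mul_sum]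
    refine this.trans (le_of_eq (Finset.sum_congr rfl fun j _ => by ring))
  set W : ℤ := d.factorial * (H : ℤ) ^ d with hW
  have hW0 : 0 ≤ W := by positivity
  have hz3 := pert_sign B W hW0 (by
    have : ((d * (d.factorial * H ^ d) * m ^ d : ℕ) : ℤ) < B := by exact_mod_cast hB2
    push_cast at this
    exact this) hm1 F M hM z hz2 hz1'
  refine exclude_flat_r (d := d) (ι := Fin m) (fun t j => (pert B F t j : ℝ))
    (fun t => (2 : ℝ) ^ e t)
    (fun t => by positivity) (fun t => by rw [Fintype.card_fin]; exact hflat t)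
    (by rw [Fintype.card_fin]; exact hm) (fun t => (M0 t : ℝ)) (fun t => (M t : ℝ))
    (fun t => by rcases hM0 t with h | h <;> rw [h] <;> simp)
    (fun t => by rcases hM t with h | h <;> rw [h] <;> simp) Bad
    (fun t ht => by rw [hbad t ht]) (by rw [Fintype.card_fin]; exact hcard) hq
    (fun j => (z j : ℝ)) ?_ t0 ?_
  · intro t
    have h1 := hz3 t
    have h2 : ((1 : ℤ) : ℝ) ≤ ((M t * ∑ j, z j * pert B F t j : ℤ) : ℝ) := by exact_mod_cast h1
    push_cast at h2
    simpa [dotProduct] using h2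
  · have h1 : ∑ j, z j * z j ≤ d * W ^ 2 := by
      have h2 : ∀ j ∈ (univ : Finset (Fin d)), z j * z j ≤ W ^ 2 := by
        intro j _
        rw [← sq]
        exact sq_le_sq' (by have := (abs_le.1 (hz2 j)).1; linarith) (abs_le.1 (hz2 j)).2
      refine (Finset.sum_le_sum h2).trans ?_
      rw [Finset.sum_const, Finset.card_univ, Fintype.card_fin, nsmul_eq_mul]
    have h2 : ((∑ j, z j * z j : ℤ) : ℝ) ≤ ((d * W ^ 2 : ℤ) : ℝ) := by exact_mod_cast h1
    have h3 : ((d * (d.factorial * H ^ d) ^ 2 : ℕ) : ℝ) ≤ ((4 ^ e t0 : ℕ) : ℝ) := by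
      exact_mod_cast he t0
    have h4 : ((2 : ℝ) ^ e t0) ^ 2 = 4 ^ e t0 := by
      rw [← pow_mul, mul_comm, pow_mul]; norm_num
    rw [h4]
    push_cast at h2 h3
    simp only [dotProduct]
    calc ∑ j, (z j : ℝ) * (z j : ℝ) ≤ (d : ℝ) * (W : ℝ) ^ 2 := h2
      _ = d * ((d.factorial : ℝ) * (H : ℝ) ^ d) ^ 2 := by rw [hW]; push_cast; ring
      _ ≤ 4 ^ e t0 := h3

/-- Is the signed sum number `l` rather short? -/
def short8 (d m : ℕ) (P : List (List ℤ)) (s : List ℕ) (l : ℕ) : Bool :=
  decide (qdet d (gv d m P s l :: rws m P s) ≤ (8 * d + 1) * qdet d (rws m P s))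

/-- The label is certified to be far from all half-spaces. -/
def certF (F : List (List ℤ)) (l : ℕ) : Bool :=
  short8 (dimF F) F.length (PF F) (runF F) l

/-- **The certificates.** Most labels are certified, and a certified label differs from all
half-spaces at many positions. -/
theorem certF_spec (F : List (List ℤ)) (hm : 1152 * dimF F ^ 2 < F.length) :
    8 * ((range (2 ^ F.length.size)).filter fun l => ¬ certF F l = true).card ≤
      2 ^ F.length.size ∧
    ∀ l, certF F l = true → ∀ (w : ℕ → ℝ) (θ : ℝ) (S : Finset ℕ), (∀ t < F.length,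
      ¬ (par l t = true ↔
        θ < ∑ j ∈ range (F.getD t []).length, w j * (((F.getD t []).getD j 0 : ℤ) : ℝ)) → t ∈ S) →
      F.length < 24 * S.card * dimF F := by
  classical
  set m := F.length with hmdef
  set d := dimF F with hd
  set n := nF F with hn
  set P := PF F with hP
  set β := bF F with hβ
  set T := tF F with hT
  have hd1 : 0 < d := by rw [hd, dimF]; omega
  have hn2 : 2 ≤ n := by rw [hn, nF]; omega
  have hmn : m ≤ n := length_le_nF F
  have hdn : d ≤ n := dimF_le_nF F
  have hdm : d ≤ m := by nlinarith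
  have hm0 : 0 < m := by omega
  set Fm : Fin m → Fin d → ℤ := fun t j => (1 :: F.getD t []).getD j 0 with hFm
  have hFb : ∀ t j, |Fm t j| ≤ 2 ^ n := fun t j => entry_le F t j
  set a : Fin m → Fin d → ℤ := pert (2 ^ β) Fm with ha
  have hPa : ∀ (t : Fin m) (j : Fin d), (P.getD t []).getD j 0 = a t j := by
    intro t j
    have h1 : P.getD t [] = (List.range d).map fun j =>
        ((2 ^ bF F : ℕ) : ℤ) * (1 :: F.getD t []).getD j 0 + ((t : ℕ) : ℤ) ^ j := by
      rw [hP]
      unfold PF
      rw [List.getD_eq_getElem _ _ (by rw [List.length_map, List.length_range]; exact t.isLt)]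
      simp only [List.getElem_map, List.getElem_range]
      rfl
    rw [h1, List.getD_eq_getElem _ _ (by rw [List.length_map, List.length_range]; exact j.isLt)]
    simp only [List.getElem_map, List.getElem_range, ha, pert, hFm, hβ]
  have hβ' : β = 4 * n ^ 3 := rfl
  have hB1 : d.factorial * (m ^ d) ^ d < 2 ^ β := bound1 hn2 hmn hdn
  have hB2 : d * (d.factorial * (2 ^ n) ^ d) * m ^ d < 2 ^ β := bound2 hn2 hmn hdn
  have hab : ∀ t j, |a t j| ≤ 2 ^ (β + n + 1) := by
    intro t j
    rw [ha, pert]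
    have h1 : |((2 ^ β : ℕ) : ℤ) * Fm t j| ≤ 2 ^ β * 2 ^ n := by
      rw [abs_mul]
      push_cast
      rw [abs_of_pos (show (0 : ℤ) < 2 ^ β by positivity)]
      exact mul_le_mul_of_nonneg_left (hFb t j) (by positivity)
    have h2 : |((t : ℕ) : ℤ) ^ (j : ℕ)| ≤ 2 ^ β * 2 ^ n := by
      rw [abs_of_nonneg (by positivity)]
      have h3 : (t : ℕ) ^ (j : ℕ) ≤ 2 ^ (n ^ 2) :=
        pow_le2 (t.isLt.le.trans hmn) (j.isLt.le.trans hdn)
      have h4 : 2 ^ (n ^ 2) ≤ 2 ^ β * 2 ^ n := by
        rw [← pow_add]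
        refine Nat.pow_le_pow_right (by norm_num) ?_
        have : n ^ 2 ≤ n ^ 3 := Nat.pow_le_pow_right (by omega) (by norm_num)
        omega
      exact_mod_cast h3.trans h4
    have h3 : (2 : ℤ) ^ (β + n + 1) = 2 ^ β * 2 ^ n + 2 ^ β * 2 ^ n := by
      rw [pow_succ, pow_add]; ring
    rw [h3]
    exact (abs_add_le _ _).trans (add_le_add h1 h2)
  obtain ⟨e, he1, he2, he3⟩ := run_flat hPa hd1 (shiftP hm0) (shiftP_inj hm0 hdm)
    (fun i => one_le_det_sq (2 ^ β) hB1 Fm _ (shiftP_inj hm0 hdm i)) (T + β) T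
    (n ^ 2 + (3 * n + 3 + 2 * β) * n) (by omega)
    (det_init hmn hdn a hab) (bound4 hn2 hmn)
  have hrun : runF F = st m e := he1
  have hg : ∀ l, (fun j : Fin d => (((gv d m P (st m e) l).getD j 0 : ℤ) : ℝ)) =
      ∑ t : Fin m, ((sgn (par l t) : ℤ) : ℝ) • V a e t := by
    intro l
    funext j
    unfold gv
    rw [List.getD_eq_getElem _ _ (by simp)]
    simp only [List.getElem_map, List.getElem_range]
    rw [Finset.sum_apply, Int.cast_list_sum, List.map_map, ← List.sum_ofFn]
    congr 1
    refine List.ext_getElem (by simp) fun t h1 h2 => ?_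
    simp only [List.getElem_map, List.getElem_range, List.getElem_ofFn, Function.comp_apply,
      Pi.smul_apply, smul_eq_mul]
    have h3 : t < m := by simpa using h2
    have h4 := congrFun (row_eq hPa e ⟨t, h3⟩) j
    rw [← h4]
    push_cast
    rfl
  have hshort : ∀ l, short8 d m P (st m e) l = true ↔
      qf (QM (V a e)) (∑ t : Fin m, ((sgn (par l t) : ℤ) : ℝ) • V a e t) ≤ 8 * d := by
    intro l
    unfold short8
    rw [decide_eq_true_iff, ← Nat.cast_le (α := ℝ)]
    push_cast
    rw [qdet_rws_cons hPa, qdet_rws hPa, hg]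
    have hD := (QM_posDef (V a e)).det_pos
    set D := (QM (V a e)).det
    set q := qf (QM (V a e)) (∑ t : Fin m, ((sgn (par l t) : ℤ) : ℝ) • V a e t)
    constructor
    · intro h
      have h2 : D * (1 + q) ≤ D * (8 * d + 1) := by linarith
      have h3 := le_of_mul_le_mul_left h2 hD
      linarith
    · intro h
      have h2 : D * (1 + q) ≤ D * (8 * d + 1) := mul_le_mul_of_nonneg_left (by linarith) hD.le
      linarith
  have hcert : ∀ l, certF F l = true ↔
      qf (QM (V a e)) (∑ t : Fin m, ((sgn (par l t) : ℤ) : ℝ) • V a e t) ≤ 8 * d := by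
    intro l
    rw [← hshort l, ← hrun]
    rfl
  set K := m.size with hK
  have hmK : m < 2 ^ K := Nat.lt_size_self m
  refine ⟨?_, fun l hl w θ S hS => ?_⟩
  · have h1 := count_label (ι := Fin m) (range (2 ^ K)) (fun l t => ((sgn (par l t) : ℤ) : ℝ))
      (by
        intro t t' htt
        have h1 := par_orth K t t' (t.isLt.trans hmK) (t'.isLt.trans hmK)
          (fun h => htt (Fin.ext h))
        exact_mod_cast h1) (by
        intro t
        have h1 := par_norm K t
        rw [card_range]
        exact_mod_cast h1) (V a e) hd1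
    rw [card_range] at h1
    have h2 : ((range (2 ^ K)).filter fun l => ¬ certF F l = true) =
        (range (2 ^ K)).filter fun l =>
          ¬ qf (QM (V a e)) (∑ t : Fin m, ((sgn (par l t) : ℤ) : ℝ) • V a e t) ≤ 8 * d := by
      refine Finset.filter_congr fun l _ => ?_
      rw [hcert l]
    rw [h2]
    exact h1
  · by_contra hcon
    rw [not_lt] at hcon
    have hq := (hcert l).1 hl
    -- the signs of the half-space
    set x : Fin m → ℝ := fun t =>
      ∑ j ∈ range (F.getD t []).length, w j * (((F.getD t []).getD j 0 : ℤ) : ℝ) - θ with hx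
    set Bad : Finset (Fin m) := univ.filter fun t => ¬ (par l t = true ↔ 0 < x t) with hBad
    have hbc : Bad.card ≤ S.card := by
      refine Finset.card_le_card_of_injOn (fun t : Fin m => (t : ℕ)) ?_
        (fun t _ t' _ h => Fin.ext h)
      intro t ht
      have h1 := (Finset.mem_filter.1 ht).2
      refine hS t t.isLt ?_
      intro h2
      apply h1
      rw [h2]
      simp only [hx, sub_pos]
    refine exclude_main_r (2 ^ β) (2 ^ n) Nat.one_le_two_pow Fm (fun t j => by
        exact_mod_cast hFb t j) hB2 hm (fun t => e t) (fun t => ?_) he3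
      (fun t => sgn (par l t)) (fun t => sgn (decide (0 < x t))) (fun t => sgn_pm _)
      (fun t => sgn_pm _) Bad (fun t ht => ?_) ?_ hq ?_
    · refine (bound3 hn2 hdn).trans (Nat.pow_le_pow_right (by norm_num) ?_)
      have := he2 t t.isLt
      omega
    · have h1 : par l t = true ↔ 0 < x t := by
        by_contra h
        exact ht (Finset.mem_filter.2 ⟨Finset.mem_univ _, h⟩)
      congr 1
      rw [Bool.eq_iff_iff, h1, decide_eq_true_iff]
    · refine le_trans ?_ hcon
      exact Nat.mul_le_mul_right _ (Nat.mul_le_mul_left _ hbc)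
    · -- the weights
      obtain ⟨δ, hδ, hδ2⟩ : ∃ δ : ℝ, 0 < δ ∧ ∀ t, 0 < x t → δ < x t := by
        by_cases hne : (univ.filter fun t => 0 < x t).Nonempty
        · obtain ⟨t1, ht1, hmin⟩ := Finset.exists_min_image _ x hne
          have h1 : 0 < x t1 := by simpa using ht1
          refine ⟨x t1 / 2, by linarith, fun t ht => ?_⟩
          have := hmin t (by simpa using ht)
          linarith
        · refine ⟨1, one_pos, fun t ht => ?_⟩
          exact absurd ⟨t, by simpa using ht⟩ hne
      refine ⟨fun j => if (j : ℕ) = 0 then -θ - δ else w (j - 1), fun t => ?_⟩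
      have hsum : ∑ j : Fin d, (if (j : ℕ) = 0 then -θ - δ else w (j - 1)) * (Fm t j : ℝ) =
          x t - δ := by
        obtain ⟨d', hd'⟩ : ∃ d', d = d' + 1 := ⟨d - 1, by omega⟩
        have h1 : ∑ j : Fin d, (if (j : ℕ) = 0 then -θ - δ else w (j - 1)) * (Fm t j : ℝ) =
            ∑ j ∈ range d, (if j = 0 then -θ - δ else w (j - 1)) *
              (((1 :: F.getD t []).getD j 0 : ℤ) : ℝ) := by
          rw [Finset.sum_range]
        rw [h1, hd', Finset.sum_range_succ']
        simp only [Nat.add_eq_zero_iff, one_ne_zero, and_false, if_false, Nat.add_sub_cancel,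
          List.getD_cons_succ, if_true, List.getD_cons_zero, Int.cast_one, mul_one]
        have h2 : ∑ j ∈ range d', w j * (((F.getD t []).getD j 0 : ℤ) : ℝ) =
            ∑ j ∈ range (F.getD t []).length, w j * (((F.getD t []).getD j 0 : ℤ) : ℝ) := by
          symm
          refine Finset.sum_subset ?_ ?_
          · intro j hj
            have h3 := length_row_le F t
            rw [Finset.mem_range] at hj ⊢
            omega
          · intro j _ hj
            rw [Finset.mem_range, not_lt] at hj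
            rw [List.getD_eq_default _ _ hj]
            simp
        rw [h2, hx]
        ring
      rw [hsum]
      by_cases hp : 0 < x t
      · have h4 : decide (0 < x t) = true := decide_eq_true hp
        rw [h4]
        have := hδ2 t hp
        have h6 : ((sgn true : ℤ) : ℝ) = 1 := by simp [sgn]
        rw [h6]
        linarith
      · have h4 : decide (0 < x t) = false := decide_eq_false hp
        rw [h4]
        have h6 : ((sgn false : ℤ) : ℝ) = -1 := by simp [sgn]
        rw [h6]
        rw [not_lt] at hp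
        linarith

/-! ### Polynomial time -/

theorem short8_poly {α : Type} [TEnc α] {d m l : α → ℕ} {P : α → List (List ℤ)}
    {s : α → List ℕ} (hd : UPoly d) (hm : UPoly m) (hP : Poly P) (hs : Poly s) (hl : Poly l) :
    Poly (fun a => short8 (d a) (m a) (P a) (s a) (l a)) := by
  unfold short8
  have hr := rws_poly hm hP hs
  exact NPC.Poly.decide_le (qdet_poly hd (NPC.Poly.cons (gv_poly hd hm hP hs hl) hr))
    (NPC.Poly.mul (NPC.Poly.add (NPC.Poly.mul (NPC.Poly.const 8) hd.toPoly) (NPC.Poly.const 1))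
      (qdet_poly hd hr))

theorem certF_poly {α : Type} [TEnc α] {F : α → List (List ℤ)} {l : α → ℕ} (hF : Poly F)
    (hl : Poly l) : Poly (fun a => certF (F a) (l a)) := by
  have hn := nF_upoly hF
  have hd : UPoly (fun a => dimF (F a)) := UPoly.of_le (dimF_poly hF) hn fun a => dimF_le_nF (F a)
  have hb : UPoly (fun a => bF (F a)) := by
    unfold bF
    exact (UPoly.const 4).mul (pow_upoly hn 3)
  have hT : UPoly (fun a => tF (F a)) := by
    unfold tF
    exact (UPoly.const 16).mul (pow_upoly hn 5)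
  have hm : UPoly (fun a => (F a).length) := UPoly.length hF
  have hP := PF_poly hF hd hb
  have hrun : Poly (fun a => runF (F a)) := by
    unfold runF
    exact iter_stp_poly hd hm (hT.add hb) hT hP
  unfold certF
  exact short8_poly hd hm hP hrun hl

end Pool.Agent.TH684.RX
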