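import Pool.Agent.TH684.RX.Cnt
import Pool.Agent.TH684.RX.Rob2
import Pool.Agent.TH684.RX.Defs

/-!
# Random gates give randomised exclusion
-/

set_option autoImplicit false

namespace Pool.Agent.TH684.RX

open Finset Pool.Agent.NPC Pool.Agent.H579R2.Spt Pool.Agent.H251R5.PQ
open Pool.Agent.TH684.LT
open Pool.Agent.TH684.EX (poly_of_polyTime)

/-- The vectors of the gate. -/
noncomputable def FF (f : List Bool → List ℤ) (ρ : Polynomial ℕ) (qs : List (List Bool)) (a : ℕ)
    (s : List Bool) : List (List ℤ) :=
  qs.map fun y => f (bits (y, (a, s.take (ρ.eval y.length))))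

/-- The guess. -/
noncomputable def XX (f : List Bool → List ℤ) (ρ : Polynomial ℕ)
    (q : List (List Bool) × (ℕ × List Bool)) : ℕ :=
  pick (certF (FF f ρ q.1 q.2.1 ((q.2.2.drop q.1.length.size).drop q.1.length.size)))
    (valB (q.2.2.take q.1.length.size)) (valB ((q.2.2.drop q.1.length.size).take q.1.length.size))

theorem FF_poly {α : Type} [TEnc α] {f : List Bool → List ℤ} (hf : Poly f) (ρ : Polynomial ℕ)
    {qs : α → List (List Bool)} {a : α → ℕ} {s : α → List Bool} (hqs : Poly qs) (ha : Poly a)
    (hs : Poly s) : Poly (fun x => FF f ρ (qs x) (a x) (s x)) := by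
  unfold FF
  have e1 : Poly (fun q : α × List Bool => q.1) := NPC.Poly.fst NPC.Poly.id
  have e2 : Poly (fun q : α × List Bool => q.2) := NPC.Poly.snd NPC.Poly.id
  exact NPC.Poly.map (l := qs) (F := fun x y => f (bits (y, (a x, (s x).take (ρ.eval y.length)))))
    hqs (hf.comp (bits_poly.comp (NPC.Poly.pair e2 (NPC.Poly.pair (ha.comp e1)
      (take_poly' (hs.comp e1) (UPoly.eval (UPoly.length e2) ρ).toPoly)))))

theorem XX_poly {f : List Bool → List ℤ} (hf : Poly f) (ρ : Polynomial ℕ) : Poly (XX f ρ) := by
  unfold XX pick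
  have e1 : Poly (fun q : List (List Bool) × (ℕ × List Bool) => q.1) := NPC.Poly.fst NPC.Poly.id
  have e2 : Poly (fun q : List (List Bool) × (ℕ × List Bool) => q.2.1) :=
    NPC.Poly.fst (NPC.Poly.snd NPC.Poly.id)
  have e3 : Poly (fun q : List (List Bool) × (ℕ × List Bool) => q.2.2) :=
    NPC.Poly.snd (NPC.Poly.snd NPC.Poly.id)
  have hK : Poly (fun q : List (List Bool) × (ℕ × List Bool) => q.1.length.size) := by
    refine (NPC.Poly.length (NPC.Poly.natBits (NPC.Poly.length e1))).congr fun a => ?_
    rw [Nat.size_eq_bits_len]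
  have h1 := NPC.Poly.valBits (take_poly' e3 hK)
  have h2 := NPC.Poly.valBits (take_poly' (drop_poly' e3 hK) hK)
  have h3 := certF_poly (FF_poly hf ρ e1 e2 (drop_poly' (drop_poly' e3 hK) hK)) h1
  exact NPC.Poly.ite (NPC.Poly.decide_bool h3) h1 h2

/-- **Random gates give randomised exclusion.** -/
theorem anti_of_gate {A : Set (List Bool)} (h : RandomGate A) :
    ∃ (b : ℕ) (ρ' : Polynomial ℕ) (X : List Bool → ℕ), Poly X ∧
      AntiG A (fun q : ℕ × (ℕ × ℕ) => par q.2.1 q.2.2) b ρ' X := by
  classical
  obtain ⟨f, ρ, c, hf, hgate⟩ := h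
  have hfp : Poly f := poly_of_polyTime hf
  obtain ⟨p, hp⟩ := (hfp.comp (bits_poly (α := List Bool × (ℕ × List Bool)))).sz_le
  -- the bound on the lengths of the vectors
  set R : Polynomial ℕ := Polynomial.C 4 * Polynomial.X + Polynomial.C 4 *
    (Polynomial.X ^ c + Polynomial.C c) + Polynomial.C 4 * ρ + 8 with hR
  set D' : Polynomial ℕ := p.comp R with hD'
  have hlen : ∀ n a : ℕ, a ≤ n ^ c + c → ∀ y s : List Bool, y.length ≤ n → s.length ≤ ρ.eval n →
      (f (bits (y, (a, s)))).length ≤ D'.eval n := by
    intro n a ha y s hy hs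
    have h1 := hp (y, (a, s))
    have h2 := length_lt_sz (f (bits (y, (a, s))))
    have h3 : sz (y, (a, s)) ≤ R.eval n := by
      rw [sz_pair, sz_pair, hR]
      have h4 := sz_listBool_le y
      have h5 := sz_nat_le a
      have h6 := NPC.Poly.size_le_self a
      have h7 := sz_listBool_le s
      simp only [Polynomial.eval_add, Polynomial.eval_mul, Polynomial.eval_C, Polynomial.eval_X,
        Polynomial.eval_pow, Polynomial.eval_ofNat]
      omega
    have h4 := eval_mono p h3
    rw [hD', Polynomial.eval_comp]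
    omega
  set Mp : Polynomial ℕ := Polynomial.C 1153 * (D' + 1) ^ 2 with hMp
  obtain ⟨b, hb0⟩ := exists_pow_add_bound (Polynomial.C 2 * Mp + Polynomial.X ^ c +
    Polynomial.C c + 8)
  set ρ' : Polynomial ℕ := Polynomial.C 2 * Mp + ρ with hρ'
  refine ⟨b, ρ', fun z => XX f ρ ((unbits (List (List Bool) × (ℕ × List Bool)) z).getD
    ([], (0, []))), (XX_poly hfp ρ).comp (NPC.Poly.optGetD poly_unbits (NPC.Poly.const _)),
    fun n => ?_⟩
  obtain ⟨a, D, ha, w, θ, hw⟩ := hgate n
  have hb := hb0 n
  simp only [Polynomial.eval_add, Polynomial.eval_mul, Polynomial.eval_C, Polynomial.eval_X,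
    Polynomial.eval_pow, Polynomial.eval_ofNat] at hb
  have hMpe : Mp.eval n = 1153 * (D'.eval n + 1) ^ 2 := by
    rw [hMp]
    simp
  set m := Mp.eval n with hm
  have hm0 : 0 < m := by rw [hMpe]; positivity
  set K := m.size with hK
  have hKm : K ≤ m := NPC.Poly.size_le_self m
  have h2K : 2 ^ K ≤ 2 * m := by
    have h5 := Nat.size_pos.2 hm0
    have h6 : 2 ^ (m.size - 1) ≤ m := by
      rw [← Nat.lt_size]
      omega
    have h7 : 2 ^ K = 2 * 2 ^ (m.size - 1) := by
      rw [← pow_succ', hK]
      congr 1
      omega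
    omega
  refine ⟨m, a, 2 ^ K, by omega, by omega, by omega, fun qs hqs hqlen => ?_⟩
  have hXe : ∀ r : List Bool, XX f ρ ((unbits (List (List Bool) × (ℕ × List Bool))
      (bits (qs, (a, r)))).getD ([], (0, []))) = pick (certF (FF f ρ qs a ((r.drop K).drop K)))
        (valB (r.take K)) (valB ((r.drop K).take K)) := by
    intro r
    rw [unbits_bits, Option.getD_some]
    unfold XX
    simp only [hqs, ← hK]
  obtain ⟨N0, hN0⟩ : ∃ N0, ρ'.eval n = K + (K + N0) := ⟨ρ'.eval n - 2 * K, by
    rw [hρ']
    simp only [Polynomial.eval_add, Polynomial.eval_mul, Polynomial.eval_C, ← hm]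
    omega⟩
  have hN0ρ : ρ.eval n ≤ N0 := by
    have h1 : ρ'.eval n = 2 * m + ρ.eval n := by
      rw [hρ']
      simp only [Polynomial.eval_add, Polynomial.eval_mul, Polynomial.eval_C, ← hm]
    omega
  refine ⟨fun r hr => ?_, fun l hl => ?_⟩
  · -- the range
    beta_reduce
    rw [hXe]
    rw [hN0] at hr
    have h1 := valB_lt (r.take K)
    have h2 := valB_lt ((r.drop K).take K)
    have h3 : (r.take K).length = K := by rw [List.length_take]; omega
    have h4 : ((r.drop K).take K).length = K := by
      rw [List.length_take, List.length_drop]; omega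
    rw [h3] at h1
    rw [h4] at h2
    unfold pick
    split_ifs
    · exact h1
    · exact h2
  · beta_reduce
    rw [ncard_BL, hN0]
    have hcongr : ((BL (K + (K + N0))).filter fun r =>
        XX f ρ ((unbits (List (List Bool) × (ℕ × List Bool)) (bits (qs, (a, r)))).getD
          ([], (0, []))) = l) = (BL (K + (K + N0))).filter fun r =>
        pick (certF (FF f ρ qs a ((r.drop K).drop K))) (valB (r.take K))
          (valB ((r.drop K).take K)) = l :=
      Finset.filter_congr fun r _ => by rw [hXe r]
    rw [hcongr]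
    -- the lists of vectors
    have hFlen : ∀ s, (FF f ρ qs a s).length = m := by
      intro s; unfold FF; rw [List.length_map, hqs]
    have htk : ∀ s ∈ BL N0, ∀ y ∈ qs, (s.take (ρ.eval y.length)).length = ρ.eval y.length := by
      intro s hs y hy
      rw [List.length_take, mem_BL.1 hs]
      have := eval_mono ρ (hqlen y hy)
      omega
    have hdim1 : ∀ s ∈ BL N0, dimF (FF f ρ qs a s) ≤ D'.eval n + 1 := by
      intro s hs
      refine dimF_le _ fun r hr => ?_
      obtain ⟨y, hy, rfl⟩ := List.mem_map.1 hr
      refine hlen n a ha y _ (hqlen y hy) ?_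
      rw [htk s hs y hy]
      exact eval_mono ρ (hqlen y hy)
    have hdim2 : ∀ s ∈ BL N0, dimF (FF f ρ qs a s) ≤ D + 1 := by
      intro s hs
      refine dimF_le _ fun r hr => ?_
      obtain ⟨y, hy, rfl⟩ := List.mem_map.1 hr
      exact (hw y (hqlen y hy)).1 _ (htk s hs y hy)
    have hbig : ∀ s ∈ BL N0, 1152 * dimF (FF f ρ qs a s) ^ 2 < (FF f ρ qs a s).length := by
      intro s hs
      rw [hFlen, hMpe]
      have h1 : dimF (FF f ρ qs a s) ^ 2 ≤ (D'.eval n + 1) ^ 2 :=
        Nat.pow_le_pow_left (hdim1 s hs) 2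
      have h2 : 0 < (D'.eval n + 1) ^ 2 := by positivity
      omega
    have hpar : ∀ t < m, (par l t = true ↔ qs.getD t [] ∈ A) := by
      intro t ht
      have ht' : t < qs.length := by rw [hqs]; exact ht
      have h5 : (answers A qs)[t]? = ((List.range m).map fun i => par l i)[t]? := by rw [hl]
      unfold answers at h5
      rw [List.getElem?_map, List.getElem?_map, List.getElem?_eq_getElem ht',
        List.getElem?_range ht] at h5
      simp only [Option.map_some, Option.some.injEq] at h5
      rw [← h5, decide_eq_true_iff, List.getD_eq_getElem _ _ ht']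
    have hkey := count_pick K N0 (fun s => certF (FF f ρ qs a s)) l ?_ ?_
    · -- the conclusion
      beta_reduce at hkey
      set H := ((BL (K + (K + N0))).filter fun r =>
        pick (certF (FF f ρ qs a ((r.drop K).drop K))) (valB (r.take K))
          (valB ((r.drop K).take K)) = l).card
      set q := n ^ b + b with hq
      have hq8 : 8 ≤ q := by omega
      have h1 : 8 * (2 ^ K * q * H) ≤ 8 * ((q - 1) * 2 ^ (K + (K + N0))) := by
        calc 8 * (2 ^ K * q * H) = 2 ^ K * q * (8 * H) := by ring
          _ ≤ 2 ^ K * q * (7 * 2 ^ (K + N0)) := Nat.mul_le_mul_left _ hkey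
          _ = 7 * q * 2 ^ (K + (K + N0)) := by rw [pow_add 2 K (K + N0)]; ring
          _ ≤ 8 * (q - 1) * 2 ^ (K + (K + N0)) := Nat.mul_le_mul_right _ (by omega)
          _ = 8 * ((q - 1) * 2 ^ (K + (K + N0))) := by ring
      omega
    · -- few strings certify the true label
      refine count_wrong N0 m (D + 1) hm0 (fun t s => ¬ (par l t = true ↔
        Gate w θ (f (bits (qs.getD t [], (a, s.take (ρ.eval (qs.getD t []).length)))))))
        (fun s => certF (FF f ρ qs a s) l = true) ?_ ?_
      · intro t ht
        have ht' : t < qs.length := by rw [hqs]; exact ht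
        have hmem : qs.getD t [] ∈ qs := by
          rw [List.getD_eq_getElem _ _ ht']
          exact List.getElem_mem ht'
        set y := qs.getD t [] with hy
        obtain ⟨-, h1⟩ := hw y (hqlen y hmem)
        have h2 : ρ.eval y.length ≤ N0 := (eval_mono ρ (hqlen y hmem)).trans hN0ρ
        obtain ⟨e, he⟩ := Nat.exists_eq_add_of_le h2
        have h3 := Pool.Agent.W901.RL.split_le_left (b := e) h1
        rw [← he, ncard_BL] at h3
        refine le_trans (le_of_eq ?_) h3
        congr 2
        refine Finset.filter_congr fun s _ => ?_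
        rw [hpar t ht]
      · intro s hs hgood
        obtain ⟨-, h1⟩ := certF_spec (FF f ρ qs a s) (hbig s hs)
        have h2 := h1 l hgood w θ ((range m).filter fun t => ¬ (par l t = true ↔
          Gate w θ (f (bits (qs.getD t [], (a, s.take (ρ.eval (qs.getD t []).length))))))) (by
            intro t ht hne
            rw [hFlen] at ht
            refine Finset.mem_filter.2 ⟨Finset.mem_range.2 ht, ?_⟩
            have ht' : t < qs.length := by rw [hqs]; exact ht
            have h3 : (FF f ρ qs a s).getD t [] =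
                f (bits (qs.getD t [], (a, s.take (ρ.eval (qs.getD t []).length)))) := by
              unfold FF
              rw [List.getD_eq_getElem _ _ (by simpa using ht'), List.getElem_map,
                List.getD_eq_getElem _ _ ht']
            rw [h3] at hne
            exact hne)
        rw [hFlen] at h2
        exact h2.le.trans (Nat.mul_le_mul_left _ (hdim2 s hs))
    · intro s hs
      obtain ⟨h1, -⟩ := certF_spec (FF f ρ qs a s) (hbig s hs)
      rw [hFlen, ← hK] at h1
      exact h1

end Pool.Agent.TH684.RX
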