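import Pool.Agent.TH684.LT.Spec

/-!
# Points in flat position: labels of moderate energy are far from all half-spaces
-/

set_option autoImplicit false

namespace Pool.Agent.TH684.RX

open Matrix Finset Pool.Agent.TH684.LT
open Pool.Agent.H579R2.Spt (par sgn par_orth par_norm)

section

variable {d : ℕ} {ι : Type*} [Fintype ι]

/-- At a flat position a vector of signs whose combination is rather short differs from all vectors of
signs of linear functionals at many positions. -/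
theorem exclude_flat_r (a : ι → Fin d → ℝ) (s : ι → ℝ) (hs : ∀ t, 0 < s t)
    (hflat : ∀ t, (Fintype.card ι : ℝ) * qf (QM fun t => s t • a t) (s t • a t) ≤ 4 * d)
    (hm : 1152 * d ^ 2 < Fintype.card ι) (M M' : ι → ℝ) (hM : ∀ t, M t = 1 ∨ M t = -1)
    (hM' : ∀ t, M' t = 1 ∨ M' t = -1) (Bad : Finset ι) (hbad : ∀ t, t ∉ Bad → M t = M' t)
    (hcard : 24 * Bad.card * d ≤ Fintype.card ι)
    (hq : qf (QM fun t => s t • a t) (∑ t, M t • (s t • a t)) ≤ 8 * d)
    (w : Fin d → ℝ) (hw : ∀ t, 1 ≤ M' t * (w ⬝ᵥ a t)) (t0 : ι) (hw0 : w ⬝ᵥ w ≤ s t0 ^ 2) :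
    False := by
  classical
  set v : ι → Fin d → ℝ := fun t => s t • a t with hv
  set Q := QM v with hQ
  have hP : Q.PosDef := QM_posDef v
  set x : ι → ℝ := fun t => M' t * (w ⬝ᵥ v t) with hx
  have hx1 : ∀ t, s t ≤ x t := by
    intro t
    have h1 : x t = s t * (M' t * (w ⬝ᵥ a t)) := by
      simp only [hx, hv, dotProduct_smul, smul_eq_mul]; ring
    rw [h1]
    exact le_mul_of_one_le_right (hs t).le (hw t)
  have hx0 : ∀ t, 0 < x t := fun t => (hs t).trans_le (hx1 t)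
  have hM2 : ∀ t, M' t ^ 2 = 1 := by
    intro t
    rcases hM' t with h | h <;> rw [h] <;> norm_num
  have hx2 : ∀ t, x t ^ 2 = (w ⬝ᵥ v t) ^ 2 := by
    intro t
    simp only [hx]
    rw [mul_pow, hM2, one_mul]
  set S2 : ℝ := ∑ t, x t ^ 2 with hS2
  set S1 : ℝ := ∑ t, x t with hS1
  set Z : ℝ := w ⬝ᵥ (Q *ᵥ w) with hZ
  have hZ1 : Z = w ⬝ᵥ w + S2 := by
    rw [hZ, hQ, QM_form, hS2]
    congr 1
    exact Finset.sum_congr rfl fun t _ => (hx2 t).symm
  have h3 : x t0 ^ 2 ≤ S2 := Finset.single_le_sum (f := fun t => x t ^ 2)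
    (fun t _ => sq_nonneg _) (Finset.mem_univ t0)
  have h1 : w ⬝ᵥ w ≤ S2 := by
    have h2 : s t0 ^ 2 ≤ x t0 ^ 2 := pow_le_pow_left₀ (hs t0).le (hx1 t0) 2
    linarith
  have hS2pos : 0 < S2 := by
    have h4 := hx0 t0
    have : 0 < x t0 ^ 2 := by positivity
    linarith
  have hZ2 : Z ≤ 2 * S2 := by linarith
  have hZ0 : 0 < Z := by
    have : 0 ≤ w ⬝ᵥ w := Finset.sum_nonneg fun i _ => mul_self_nonneg _
    linarith
  set m : ℝ := (Fintype.card ι : ℝ) with hmdef
  have hm' : 1152 * (d : ℝ) ^ 2 < m := by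
    rw [hmdef]
    exact_mod_cast hm
  have hm0 : 0 < m := lt_of_le_of_lt (by positivity) hm'
  have hcard' : 24 * (Bad.card : ℝ) * d ≤ m := by
    rw [hmdef]
    exact_mod_cast hcard
  set B : ℝ := Z * (4 * d / m) with hB
  have hB0 : 0 ≤ B := by positivity
  have hxB : ∀ t, x t ^ 2 ≤ B := by
    intro t
    rw [hx2]
    refine (cs_qf hP w (v t)).trans ?_
    refine mul_le_mul_of_nonneg_left ?_ hZ0.le
    rw [le_div_iff₀ hm0, mul_comm]
    exact hflat t
  have hxs : ∀ t, x t ≤ Real.sqrt B := fun t => Real.le_sqrt_of_sq_le (hxB t)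
  have hS2B : S2 ≤ Real.sqrt B * S1 := by
    rw [hS2, hS1, Finset.mul_sum]
    refine Finset.sum_le_sum fun t _ => ?_
    rw [sq]
    exact mul_le_mul_of_nonneg_right (hxs t) (hx0 t).le
  -- the combination
  set g : ℝ := ∑ t, M t * (w ⬝ᵥ v t) with hg
  have hgx : S1 - 2 * (Bad.card * Real.sqrt B) ≤ g := by
    have e1 : ∀ t, x t - 2 * (if t ∈ Bad then x t else 0) ≤ M t * (w ⬝ᵥ v t) := by
      intro t
      have e2 : w ⬝ᵥ v t = M' t * x t := by
        have := hM2 t
        simp only [hx]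
        rw [← mul_assoc, ← sq, this, one_mul]
      by_cases ht : t ∈ Bad
      · rw [if_pos ht, e2]
        have h4 := hx0 t
        rcases hM t with h | h <;> rcases hM' t with h' | h' <;> rw [h, h'] <;> linarith
      · rw [if_neg ht, e2, hbad t ht, ← mul_assoc, ← sq, hM2]
        linarith
    have e3 := Finset.sum_le_sum fun t (_ : t ∈ (univ : Finset ι)) => e1 t
    rw [Finset.sum_sub_distrib, ← Finset.mul_sum, Finset.sum_ite_mem, Finset.univ_inter] at e3
    have e4 : ∑ t ∈ Bad, x t ≤ Bad.card * Real.sqrt B := by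
      refine (Finset.sum_le_sum fun t _ => hxs t).trans ?_
      rw [Finset.sum_const, nsmul_eq_mul]
    rw [hg, hS1]
    linarith
  have hgZ : g ^ 2 ≤ Z * (8 * d) := by
    have h2 := cs_qf hP w (∑ t, M t • v t)
    have h3 : w ⬝ᵥ (∑ t, M t • v t) = g := by
      rw [dotProduct_sum, hg]
      refine Finset.sum_congr rfl fun t _ => ?_
      rw [dotProduct_smul, smul_eq_mul]
    rw [h3] at h2
    exact h2.trans (mul_le_mul_of_nonneg_left hq hZ0.le)
  -- first product
  have hp1 : Real.sqrt B * g < Z / 6 := by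
    refine lt_of_pow_lt_pow_left₀ 2 (by positivity) ?_
    rw [mul_pow, Real.sq_sqrt hB0]
    have h4 : B * g ^ 2 ≤ B * (Z * (8 * d)) := mul_le_mul_of_nonneg_left hgZ hB0
    refine lt_of_le_of_lt h4 ?_
    have h5 : B * (Z * (8 * d)) = (32 * d ^ 2 * Z ^ 2) / m := by rw [hB]; ring
    rw [h5, div_lt_iff₀ hm0]
    have h6 : 0 < Z ^ 2 := by positivity
    nlinarith
  -- second product
  have hp2 : Real.sqrt B * (2 * (Bad.card * Real.sqrt B)) ≤ Z / 3 := by
    have h4 : Real.sqrt B * (2 * (Bad.card * Real.sqrt B)) = 2 * Bad.card * B := by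
      have := Real.mul_self_sqrt hB0
      linear_combination (2 * (Bad.card : ℝ)) * this
    rw [h4, hB]
    have h5 : 2 * (Bad.card : ℝ) * (Z * (4 * d / m)) = Z * (8 * Bad.card * d) / m := by ring
    rw [h5, div_le_iff₀ hm0]
    nlinarith
  have h7 : Real.sqrt B * S1 ≤ Real.sqrt B * g + Real.sqrt B * (2 * (Bad.card * Real.sqrt B)) := by
    rw [← mul_add]
    exact mul_le_mul_of_nonneg_left (by linarith) (Real.sqrt_nonneg _)
  linarith

/-- Few labels have long combinations. -/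
theorem count_label {Λ : Type*} (L : Finset Λ) (M : Λ → ι → ℝ)
    (horth : ∀ t t', t ≠ t' → ∑ l ∈ L, M l t * M l t' = 0)
    (hnorm : ∀ t, ∑ l ∈ L, M l t * M l t = L.card) (v : ι → Fin d → ℝ) (hd : 0 < d)
    [DecidablePred fun l => ¬ qf (QM v) (∑ t, M l t • v t) ≤ 8 * d] :
    8 * (L.filter fun l => ¬ qf (QM v) (∑ t, M l t • v t) ≤ 8 * d).card ≤ L.card := by
  classical
  have h1 : ∑ l ∈ L, qf (QM v) (∑ t, M l t • v t) = L.card * ∑ t, qf (QM v) (v t) := by
    have h2 : ∀ l, qf (QM v) (∑ t, M l t • v t) =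
        ∑ t, ∑ t', (M l t * M l t') * (v t ⬝ᵥ ((QM v)⁻¹ *ᵥ v t')) := by
      intro l
      rw [qf, sum_dotProduct]
      refine Finset.sum_congr rfl fun t _ => ?_
      rw [smul_dotProduct, Matrix.mulVec_sum, dotProduct_sum, smul_eq_mul, Finset.mul_sum]
      refine Finset.sum_congr rfl fun t' _ => ?_
      rw [mulVec_smul, dotProduct_smul, smul_eq_mul]
      ring
    rw [Finset.sum_congr rfl fun l _ => h2 l, Finset.sum_comm, Finset.mul_sum]
    refine Finset.sum_congr rfl fun t _ => ?_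
    rw [Finset.sum_comm]
    have h3 : ∀ t' ∈ (univ : Finset ι), ∑ l ∈ L, (M l t * M l t') * (v t ⬝ᵥ ((QM v)⁻¹ *ᵥ v t')) =
        if t' = t then (L.card : ℝ) * qf (QM v) (v t) else 0 := by
      intro t' _
      rw [← Finset.sum_mul]
      by_cases h : t' = t
      · subst h
        rw [if_pos rfl, hnorm, qf]
      · rw [if_neg h, horth t t' (fun h' => h h'.symm), zero_mul]
    rw [Finset.sum_congr rfl h3, Finset.sum_ite_eq' univ t, if_pos (Finset.mem_univ t)]
  set S := L.filter fun l => ¬ qf (QM v) (∑ t, M l t • v t) ≤ 8 * d with hS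
  have h4 : ∑ l ∈ S, (8 * (d : ℝ)) ≤ ∑ l ∈ L, qf (QM v) (∑ t, M l t • v t) := by
    calc ∑ l ∈ S, (8 * (d : ℝ)) ≤ ∑ l ∈ S, qf (QM v) (∑ t, M l t • v t) :=
          Finset.sum_le_sum fun l hl => by
            have h5 := (Finset.mem_filter.1 hl).2
            exact (not_le.1 h5).le
      _ ≤ _ := Finset.sum_le_sum_of_subset_of_nonneg (Finset.filter_subset _ _)
          fun l _ _ => qf_nonneg (QM_posDef v) _
  rw [h1, Finset.sum_const, nsmul_eq_mul] at h4
  have h5 := sum_qf_le v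
  have h6 : (0 : ℝ) ≤ L.card := Nat.cast_nonneg _
  have h7 : (0 : ℝ) < d := by exact_mod_cast hd
  have h8 : (8 * (S.card : ℝ)) * d ≤ L.card * d := by
    have h9 := mul_le_mul_of_nonneg_left h5 h6
    linarith
  have h9 := le_of_mul_le_mul_right h8 h7
  exact_mod_cast h9

end

end Pool.Agent.TH684.RX
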