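import Pool.Agent.TH684.RX.Gate
import Pool.Agent.W920.NL.LawR4

/-!
# Randomised exclusion, random gates, and `NP = RP`
-/

set_option autoImplicit false

namespace Pool.Agent.TH684.RX

open Finset Pool.Agent.NPC Pool.Agent.H579R2.Spt Pool.Agent.H251R5.PQ
open Pool.Agent.TH684.LT Pool.Agent.TH684.EX
open Pool.Agent.W920.NL (InBPP blocks_le str_ncard str_finite Str)

/-- Guessing worse than at random, for a family given by a set in `P`. -/
theorem anti_of_antiGuess {A L : Set (List Bool)} (hL : InP L) (h : AntiGuess L A) :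
    ∃ (lam : ℕ × (ℕ × ℕ) → Bool) (b : ℕ) (ρ : Polynomial ℕ) (X : List Bool → ℕ),
      Poly lam ∧ Poly X ∧ AntiG A lam b ρ X := by
  classical
  obtain ⟨V, hV, hVL⟩ := hL
  obtain ⟨X, ρ, b, hX, h⟩ := h
  have hlam : Poly (fun q : ℕ × (ℕ × ℕ) => decide (V (bits q) = [true])) :=
    NPC.Poly.decide_eq ((PIso.poly_iff.2 hV).comp bits_poly) (NPC.Poly.const [true])
  refine ⟨fun q => decide (V (bits q) = [true]), b, ρ, X, hlam, poly_of_polyTime hX, fun n => ?_⟩
  obtain ⟨m, a, F, hm, ha, hF, h1⟩ := h n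
  refine ⟨m, a, F, hm, ha, hF, fun qs hqs hlen => ?_⟩
  obtain ⟨h2, h3⟩ := h1 qs hqs hlen
  refine ⟨h2, fun l hl => h3 l ?_⟩
  rw [hl]
  unfold vec
  refine List.map_congr_left fun i _ => ?_
  exact decide_eq_decide.2 (hVL _).symm

theorem antiGuess_of_findNotOnly {A : Set (List Bool)} (h : FindNotOnly A) :
    AntiGuess Lunit A := by
  classical
  obtain ⟨X, ρ, b, hX, h⟩ := h
  refine ⟨X, ρ, b, hX, fun n => ?_⟩
  obtain ⟨m, a, _, hm, ha, h1⟩ := h n
  refine ⟨m, a, m, hm, ha, hm, fun qs hqs hlen => ?_⟩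
  obtain ⟨h2, h3⟩ := h1 qs hqs hlen
  refine ⟨h2, fun l hl => h3 l fun j hj => ?_⟩
  rw [vec_lunit] at hl
  have hj' : j < qs.length := by omega
  have h4 := congrArg (fun l => l.getD j false) hl
  simp only [answers] at h4
  rw [List.getD_eq_getElem _ _ (by simpa using hj'), List.getD_eq_getElem _ _ (by simpa using hj),
    List.getElem_map, List.getElem_map, List.getElem_range] at h4
  rw [List.getD_eq_getElem _ _ hj']
  simpa using h4

/-! ### The easy directions -/

/-- Several trials. -/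
def tr (V : List Bool → List Bool) (T B k : ℕ) (r y : List Bool) : Bool :=
  (List.range T).any fun i => decide (V (pairBits y ((r.drop (i * B)).take k)) = [true])

theorem tr_poly {α : Type} [TEnc α] {V : List Bool → List Bool} (hV : NPC.Poly V) (T : ℕ)
    {B k : α → ℕ} {r y : α → List Bool} (hB : Poly B) (hk : Poly k) (hr : Poly r) (hy : Poly y) :
    Poly (fun a => tr V T (B a) (k a) (r a) (y a)) := by
  unfold tr
  have e1 : Poly (fun q : α × ℕ => q.1) := NPC.Poly.fst NPC.Poly.id
  have e2 : Poly (fun q : α × ℕ => q.2) := NPC.Poly.snd NPC.Poly.id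
  refine NPC.Poly.any (l := fun _ : α => List.range T)
    (p := fun a i => decide (V (pairBits (y a) (((r a).drop (i * B a)).take (k a))) = [true]))
    (NPC.Poly.const _) ?_
  exact NPC.Poly.decide_eq (hV.comp (Pool.Agent.H622R2.poly_pairBits (hy.comp e1)
    (take_poly' (drop_poly' (hr.comp e1) (NPC.Poly.mul e2 (hB.comp e1))) (hk.comp e1))))
    (NPC.Poly.const [true])

/-- The trials are right. -/
theorem tr_spec {A : Set (List Bool)} {V : List Bool → List Bool} {ρ : Polynomial ℕ}
    (hA1 : ∀ x ∈ A, 2 ^ ρ.eval x.length ≤ 2 * {r : List Bool | r.length = ρ.eval x.length ∧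
      V (pairBits x r) = [true]}.ncard)
    (hA2 : ∀ x, x ∉ A → ∀ r : List Bool, r.length = ρ.eval x.length → V (pairBits x r) ≠ [true])
    (T B : ℕ) (y : List Bool) (hB : ρ.eval y.length ≤ B) :
    2 ^ T * {r : List Bool | r.length = T * B ∧
      ¬ (y ∈ A ↔ tr V T B (ρ.eval y.length) r y = true)}.ncard ≤ 2 ^ (T * B) ∧
    (y ∉ A → ∀ r : List Bool, r.length = T * B → tr V T B (ρ.eval y.length) r y = false) := by
  have hno : y ∉ A → ∀ r : List Bool, r.length = T * B →
      tr V T B (ρ.eval y.length) r y = false := by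
    intro hy r hr
    unfold tr
    rw [List.any_eq_false]
    intro i hi
    rw [decide_eq_true_eq]
    refine hA2 y hy _ ?_
    have hi1 := List.mem_range.1 hi
    have h6 : (i + 1) * B ≤ T * B := Nat.mul_le_mul_right _ hi1
    have h7 : (i + 1) * B = i * B + B := by ring
    rw [List.length_take, List.length_drop, hr]
    omega
  refine ⟨?_, hno⟩
  by_cases hy : y ∈ A
  · set Y : Set (List Bool) := {r : List Bool | r.length = ρ.eval y.length ∧
      ¬ V (pairBits y r) = [true]} with hY
    have hYc : 2 * Y.ncard ≤ 2 ^ ρ.eval y.length := by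
      have h1 := hA1 y hy
      have h2 : {r : List Bool | r.length = ρ.eval y.length ∧ V (pairBits y r) = [true]}.ncard +
          Y.ncard = 2 ^ ρ.eval y.length := by
        rw [← str_ncard (ρ.eval y.length), ← Set.ncard_union_eq _
          ((str_finite _).subset fun r hr => hr.1) ((str_finite _).subset fun r hr => hr.1)]
        · congr 1
          ext r
          simp only [hY, Str, Set.mem_union, Set.mem_ofPred_eq]
          tauto
        · rw [Set.disjoint_left]
          rintro r ⟨_, hr⟩ ⟨_, hr'⟩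
          exact hr' hr
      omega
    have h2 := blocks_le (X := Y) (n := ρ.eval y.length) (B := B) (fun r hr => hr.1) hB hYc T T le_rfl
    refine le_trans (Nat.mul_le_mul_left _ (Set.ncard_le_ncard ?_ ?_)) h2
    · rintro r ⟨hr1, hr2⟩
      refine ⟨hr1, fun i hi => ⟨?_, fun hv => hr2 ⟨fun _ => ?_, fun _ => hy⟩⟩⟩
      · have h6 : (i + 1) * B ≤ T * B := Nat.mul_le_mul_right _ hi
        have h7 : (i + 1) * B = i * B + B := by ring
        rw [List.length_take, List.length_drop, hr1]
        omega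
      · unfold tr
        rw [List.any_eq_true]
        exact ⟨i, List.mem_range.2 hi, decide_eq_true hv⟩
    · exact (str_finite _).subset fun r hr => hr.1
  · have h2 : {r : List Bool | r.length = T * B ∧
        ¬ (y ∈ A ↔ tr V T B (ρ.eval y.length) r y = true)} = ∅ := by
      ext r
      simp only [Set.mem_ofPred_eq, Set.mem_empty_iff_false, iff_false, not_and, not_not]
      intro hr
      rw [hno hy r hr]
      simp [hy]
    rw [h2]
    simp

/-- Sets in `RP` are decided by one gate with random inputs. -/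
theorem randomGate_of_inRP {A : Set (List Bool)} (hA : Pool.Agent.W920.NL.InRP A) : RandomGate A := by
  classical
  obtain ⟨V, ρ, hV, hA1, hA2⟩ := hA
  have hVp : NPC.Poly V := PIso.poly_iff.2 hV
  set g : List Bool × (ℕ × List Bool) → List ℤ := fun q =>
    if tr V 6 (ρ.eval q.1.length) (ρ.eval q.1.length) q.2.2 q.1 = true then [1] else [0] with hg
  have hgp : Poly g := by
    have e1 : Poly (fun q : List Bool × (ℕ × List Bool) => q.1) := NPC.Poly.fst NPC.Poly.id
    have e2 : Poly (fun q : List Bool × (ℕ × List Bool) => q.2.2) :=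
      NPC.Poly.snd (NPC.Poly.snd NPC.Poly.id)
    have e3 := ((UPoly.length e1).eval ρ).toPoly
    exact NPC.Poly.ite (NPC.Poly.decide_bool (tr_poly hVp 6 e3 e3 e2 e1)) (NPC.Poly.const _)
      (NPC.Poly.const _)
  refine ⟨fun z => g ((unbits (List Bool × (ℕ × List Bool)) z).getD ([], (0, []))),
    Polynomial.C 6 * ρ, 0, polyTime_bits (hgp.comp (NPC.Poly.optGetD poly_unbits
      (NPC.Poly.const _))), fun n => ⟨0, 1, Nat.zero_le _, fun _ => 1, 1 / 2, fun x _ => ?_⟩⟩
  have hval : ∀ r : List Bool, g ((unbits (List Bool × (ℕ × List Bool))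
      (bits (x, ((0 : ℕ), r)))).getD ([], (0, []))) =
      if tr V 6 (ρ.eval x.length) (ρ.eval x.length) r x = true then [1] else [0] := by
    intro r
    rw [unbits_bits, Option.getD_some]
  have e6 : (Polynomial.C 6 * ρ).eval x.length = 6 * ρ.eval x.length := by simp
  refine ⟨fun r _ => ?_, ?_⟩
  · beta_reduce
    rw [hval]
    split_ifs <;> simp
  · rw [e6]
    have h1 := (tr_spec hA1 hA2 6 (ρ.eval x.length) x le_rfl).1
    refine le_trans (Nat.mul_le_mul_left _ (Set.ncard_le_ncard ?_ ?_)) h1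
    · rintro r ⟨hr1, hr2⟩
      refine ⟨hr1, fun h => hr2 ?_⟩
      rw [h]
      beta_reduce
      rw [hval]
      by_cases h3 : tr V 6 (ρ.eval x.length) (ρ.eval x.length) r x = true
      · rw [if_pos h3]
        simp only [h3, true_iff, Gate]
        norm_num
      · rw [if_neg h3]
        simp only [h3, Gate]
        norm_num
    · exact (str_finite _).subset fun r hr => hr.1

/-- For sets in `RP` a position can be found. -/
theorem findNotOnly_of_inRP {A : Set (List Bool)} (hA : Pool.Agent.W920.NL.InRP A) : FindNotOnly A := by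
  classical
  obtain ⟨V, ρ, hV, hA1, hA2⟩ := hA
  have hVp : NPC.Poly V := PIso.poly_iff.2 hV
  set g : List (List Bool) × (ℕ × List Bool) → ℕ := fun q =>
    if tr V 2 (q.2.2.length / 2) (ρ.eval (q.1.getD 0 []).length) q.2.2 (q.1.getD 0 []) = true
      then 1 else 0 with hg
  have hgp : Poly g := by
    have e1 : Poly (fun q : List (List Bool) × (ℕ × List Bool) => q.1.getD 0 []) :=
      NPC.Poly.getD (NPC.Poly.fst NPC.Poly.id) (NPC.Poly.const 0) (NPC.Poly.const [])
    have e2 : Poly (fun q : List (List Bool) × (ℕ × List Bool) => q.2.2) :=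
      NPC.Poly.snd (NPC.Poly.snd NPC.Poly.id)
    have e3 := ((UPoly.length e1).eval ρ).toPoly
    exact NPC.Poly.ite (NPC.Poly.decide_bool (tr_poly hVp 2
      (NPC.Poly.div (NPC.Poly.length e2) (NPC.Poly.const 2)) e3 e2 e1)) (NPC.Poly.const _)
      (NPC.Poly.const _)
  refine ⟨fun z => g ((unbits (List (List Bool) × (ℕ × List Bool)) z).getD ([], (0, []))),
    Polynomial.C 2 * ρ, 2, polyTime_bits (hgp.comp (NPC.Poly.optGetD poly_unbits
      (NPC.Poly.const _))), fun n => ⟨2, 0, by omega, by omega, by omega,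
      fun qs hqs hlen => ?_⟩⟩
  obtain ⟨y, y', rfl⟩ := List.length_eq_two.1 hqs
  have hval : ∀ r : List Bool, r.length = 2 * ρ.eval n →
      g ((unbits (List (List Bool) × (ℕ × List Bool))
      (bits ([y, y'], ((0 : ℕ), r)))).getD ([], (0, []))) =
      if tr V 2 (ρ.eval n) (ρ.eval y.length) r y = true then 1 else 0 := by
    intro r hr
    rw [unbits_bits, Option.getD_some]
    simp only [hg, List.getD_cons_zero, hr]
    rw [Nat.mul_div_cancel_left _ (by norm_num : 0 < 2)]
  have e6 : (Polynomial.C 2 * ρ).eval n = 2 * ρ.eval n := by simp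
  have hyn : ρ.eval y.length ≤ ρ.eval n := eval_mono ρ (hlen y (by simp))
  obtain ⟨h1, h2⟩ := tr_spec hA1 hA2 2 (ρ.eval n) y hyn
  refine ⟨fun r hr => ?_, fun i hi => ?_⟩
  · beta_reduce
    rw [e6] at hr
    rw [hval r hr]
    split_ifs <;> omega
  · rw [e6]
    have h0 := hi 0 (by norm_num)
    rw [List.getD_cons_zero] at h0
    have hq : 2 ≤ n ^ 2 + 2 := by omega
    set q := n ^ 2 + 2 with hqd
    set S := {r : List Bool | r.length = 2 * ρ.eval n ∧
      (fun z => g ((unbits (List (List Bool) × (ℕ × List Bool)) z).getD ([], (0, []))))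
        (bits ([y, y'], ((0 : ℕ), r))) = i} with hS
    have h3 : 2 ^ 2 * S.ncard ≤ 2 ^ (2 * ρ.eval n) := by
      refine le_trans (Nat.mul_le_mul_left _ (Set.ncard_le_ncard ?_ ?_)) h1
      · rintro r ⟨hr1, hr2⟩
        refine ⟨hr1, fun h => ?_⟩
        beta_reduce at hr2
        rw [hval r hr1] at hr2
        by_cases h4 : tr V 2 (ρ.eval n) (ρ.eval y.length) r y = true
        · rw [if_pos h4] at hr2
          have h5 := h0.1 (h.2 h4)
          omega
        · rw [if_neg h4] at hr2
          exact h4 (h.1 (h0.2 hr2))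
      · exact (str_finite _).subset fun r hr => hr.1
    have h4 : 4 * (2 * q * S.ncard) ≤ 4 * ((q - 1) * 2 ^ (2 * ρ.eval n)) := by
      calc 4 * (2 * q * S.ncard) = 2 * q * (2 ^ 2 * S.ncard) := by ring
        _ ≤ 2 * q * 2 ^ (2 * ρ.eval n) := Nat.mul_le_mul_left _ h3
        _ ≤ 4 * (q - 1) * 2 ^ (2 * ρ.eval n) := Nat.mul_le_mul_right _ (by omega)
        _ = 4 * ((q - 1) * 2 ^ (2 * ρ.eval n)) := by ring
    omega

/-- **The law.** -/
theorem rp_tfae : List.TFAE
    [∀ L : Set (List Bool), InNP L → Pool.Agent.W920.NL.InRP L,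
      ∀ L : Set (List Bool), InNP L → InBPP L,
      ∃ A L : Set (List Bool), NPHard A ∧ InP L ∧ AntiGuess L A,
      ∃ A : Set (List Bool), NPHard A ∧ FindNotOnly A,
      ∃ A : Set (List Bool), NPHard A ∧ RandomGate A,
      ∀ A : Set (List Bool), InNP A → FindNotOnly A ∧ RandomGate A] := by
  tfae_have 1 → 2 := ((Pool.Agent.W920.NL.rand_law (δ := 1 / 2) (ε := 1) (by norm_num) le_rfl
    one_pos).out 0 1).1
  tfae_have 2 → 1 := ((Pool.Agent.W920.NL.rand_law (δ := 1 / 2) (ε := 1) (by norm_num) le_rfl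
    one_pos).out 1 0).1
  tfae_have 1 → 6 := fun h A hA => ⟨findNotOnly_of_inRP (h A hA), randomGate_of_inRP (h A hA)⟩
  tfae_have 6 → 5 := fun h => by
    obtain ⟨hA1, hA2⟩ := Pool.Agent.NPC.H545KS.sat_complete
    exact ⟨_, hA2, (h _ hA1).2⟩
  tfae_have 6 → 4 := fun h => by
    obtain ⟨hA1, hA2⟩ := Pool.Agent.NPC.H545KS.sat_complete
    exact ⟨_, hA2, (h _ hA1).1⟩
  tfae_have 4 → 3 := fun ⟨A, hA, h⟩ => ⟨A, Lunit, hA, lunit_inP, antiGuess_of_findNotOnly h⟩
  tfae_have 3 → 1 := fun ⟨A, L, hA, hL, h⟩ => by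
    obtain ⟨lam, b, ρ, X, hlam, hX, hex⟩ := anti_of_antiGuess hL h
    exact rp_of_anti hA hlam hX hex
  tfae_have 5 → 1 := fun ⟨A, hA, h⟩ => by
    obtain ⟨b, ρ, X, hX, hex⟩ := anti_of_gate h
    exact rp_of_anti hA (par_poly (NPC.Poly.fst (NPC.Poly.snd NPC.Poly.id))
      (NPC.Poly.snd (NPC.Poly.snd NPC.Poly.id))) hX hex
  tfae_finish

end Pool.Agent.TH684.RX
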